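import Mathlib

/-!
Triples of integers obtained from `(g, g, g)`, `g > 0`, by adding repeatedly the sum of two
coordinates to the third one. Divisibility and the orbits of the Tribonacci matrix are definable
from this relation.
-/

set_option autoImplicit false

namespace Run7.h452.R

/-- vectors obtained from `(g, g, g)`, `g > 0`, by adding repeatedly the sum of two coordinates
to the third one -/
inductive AR : ℤ → ℤ → ℤ → Prop
  | base (g : ℤ) : 0 < g → AR g g g
  | s0 (a b c : ℤ) : AR a b c → AR (a + b + c) b c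
  | s1 (a b c : ℤ) : AR a b c → AR a (a + b + c) c
  | s2 (a b c : ℤ) : AR a b c → AR a b (a + b + c)

theorem AR.pos {a b c : ℤ} (h : AR a b c) : 0 < a ∧ 0 < b ∧ 0 < c := by
  induction h with
  | base g hg => exact ⟨hg, hg, hg⟩
  | s0 a b c _ ih => omega
  | s1 a b c _ ih => omega
  | s2 a b c _ ih => omega

theorem AR.rot {a b c : ℤ} (h : AR a b c) : AR b c a := by
  induction h with
  | base g hg => exact AR.base g hg
  | s0 a b c _ ih =>
    have := AR.s2 _ _ _ ih
    rw [show b + c + a = a + b + c by ring] at this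
    exact this
  | s1 a b c _ ih =>
    have := AR.s0 _ _ _ ih
    rw [show b + c + a = a + b + c by ring] at this
    exact this
  | s2 a b c _ ih =>
    have := AR.s1 _ _ _ ih
    rw [show b + c + a = a + b + c by ring] at this
    exact this

theorem AR.inv {a b c : ℤ} (h : AR a b c) : (a = b ∧ b = c) ∨ (b + c < a ∧ AR (a - b - c) b c) ∨
    (a + c < b ∧ AR a (b - a - c) c) ∨ (a + b < c ∧ AR a b (c - a - b)) := by
  cases h with
  | base g hg => left; exact ⟨rfl, rfl⟩
  | s0 a b c h =>
    right; left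
    have := h.pos
    refine ⟨by omega, ?_⟩
    rw [show a + b + c - b - c = a by ring]
    exact h
  | s1 a b c h =>
    right; right; left
    have := h.pos
    refine ⟨by omega, ?_⟩
    rw [show a + b + c - a - c = b by ring]
    exact h
  | s2 a b c h =>
    right; right; right
    have := h.pos
    refine ⟨by omega, ?_⟩
    rw [show a + b + c - a - b = c by ring]
    exact h

/-! ### divisibility -/

theorem AR.odd_mul_aux (b : ℤ) : ∀ (n : ℕ) (x : ℤ), x ≤ n → AR x b b →
    ∃ k : ℕ, x = b * (2 * k + 1) := by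
  intro n
  induction n with
  | zero =>
    intro x hx h
    have := h.pos
    push_cast at hx
    omega
  | succ n ih =>
    intro x hx h
    have hp := h.pos
    push_cast at hx
    rcases h.inv with ⟨h1, -⟩ | ⟨h1, h2⟩ | ⟨h1, -⟩ | ⟨h1, -⟩
    · exact ⟨0, by simp [h1]⟩
    · obtain ⟨k, hk⟩ := ih (x - b - b) (by omega) h2
      refine ⟨k + 1, ?_⟩
      push_cast
      linarith
    · omega
    · omega

theorem AR.of_odd {b : ℤ} (hb : 0 < b) (k : ℕ) : AR (b * (2 * k + 1)) b b := by
  induction k with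
  | zero => simpa using AR.base b hb
  | succ k ih =>
    have := AR.s0 _ _ _ ih
    convert this using 1
    push_cast
    ring

theorem AR_dvd {m x : ℤ} : AR (2 * x + m) m m ↔ 0 < m ∧ 0 ≤ x ∧ m ∣ x := by
  constructor
  · intro h
    have hp := h.pos
    obtain ⟨k, hk⟩ := AR.odd_mul_aux m (2 * x + m).toNat _ (Int.self_le_toNat _) h
    have e : x = m * k := by linarith
    refine ⟨hp.2.1, ?_, ⟨k, e⟩⟩
    rw [e]
    have : (0 : ℤ) ≤ k := Int.natCast_nonneg k
    exact mul_nonneg (by omega) this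
  · rintro ⟨hm, hx, k, rfl⟩
    have hk : 0 ≤ k := by
      by_contra hk
      push Not at hk
      have : m * k < 0 := mul_neg_of_pos_of_neg hm hk
      omega
    obtain ⟨k, rfl⟩ := Int.eq_ofNat_of_zero_le hk
    have := AR.of_odd hm k
    convert this using 1
    ring

/-! ### orbits of the Tribonacci matrix -/

/-- the Tribonacci map -/
def T7 (x : ℤ × ℤ × ℤ) : ℤ × ℤ × ℤ := (x.1 + x.2.1 + x.2.2, x.1, x.2.1)

/-- the conditions which isolate the orbit -/
def Orb (x y z : ℤ) : Prop :=
  z ≤ y ∧ y ≤ x ∧ AR x y z ∧ AR (2 * x - y) (2 * y - z) (3 * z + y - x) ∧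
    AR (2 * x - z) (3 * y - x + z) (x - 2 * y + 2 * z)

theorem orb_bad {y z t : ℤ} (h1 : AR y z t) (h2 : AR (2 * y - z) (2 * z - t) (3 * t + z - y))
    (h3 : AR (2 * y - t) (3 * z - y + t) (y - 2 * z + 2 * t)) (hzy : z ≤ y) (hzt : z < t) :
    False := by
  have p1 := h1.pos
  have p2 := h2.pos
  have p3 := h3.pos
  rcases h1.inv with ⟨e1, e2⟩ | ⟨i1, g1⟩ | ⟨i1, g1⟩ | ⟨i1, g1⟩
  · omega
  · rcases h2.inv with ⟨e1, e2⟩ | ⟨i2, g2⟩ | ⟨i2, g2⟩ | ⟨i2, g2⟩
    · omega
    · rcases h3.inv with ⟨e1, e2⟩ | ⟨i3, g3⟩ | ⟨i3, g3⟩ | ⟨i3, g3⟩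
      · omega
      · have q1 := g1.pos
        have q2 := g2.pos
        have q3 := g3.pos
        rcases g1.inv with ⟨e1, e2⟩ | ⟨i4, -⟩ | ⟨i4, -⟩ | ⟨i4, -⟩ <;> omega
      · omega
      · omega
    · omega
    · omega
  · omega
  · omega

theorem orb_step {x y z : ℤ} (h : Orb x y z) : (x = y ∧ y = z) ∨ Orb y z (x - y - z) := by
  obtain ⟨hzy, hyx, h1, h2, h3⟩ := h
  have p1 := h1.pos
  have p2 := h2.pos
  have p3 := h3.pos
  rcases h1.inv with ⟨e1, e2⟩ | ⟨i1, g1⟩ | ⟨i1, g1⟩ | ⟨i1, g1⟩
  · left; exact ⟨e1, e2⟩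
  · right
    rcases h2.inv with ⟨e1, e2⟩ | ⟨i2, g2⟩ | ⟨i2, g2⟩ | ⟨i2, g2⟩
    · omega
    · rcases h3.inv with ⟨e1, e2⟩ | ⟨i3, g3⟩ | ⟨i3, g3⟩ | ⟨i3, g3⟩
      · omega
      · have k1 : AR y z (x - y - z) := g1.rot
        have k2 : AR (2 * y - z) (2 * z - (x - y - z)) (3 * (x - y - z) + z - y) := by
          have := g2.rot
          convert this using 1 <;> ring
        have k3 : AR (2 * y - (x - y - z)) (3 * z - y + (x - y - z))
            (y - 2 * z + 2 * (x - y - z)) := by
          have := g3.rot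
          convert this using 1 <;> ring
        rcases lt_or_ge z (x - y - z) with hz | hz
        · exact (orb_bad k1 k2 k3 hzy hz).elim
        · exact ⟨hz, hzy, k1, k2, k3⟩
      · omega
      · omega
    · omega
    · omega
  · omega
  · omega

theorem orb_main : ∀ (n : ℕ) (x y z : ℤ), x + y + z ≤ n → Orb x y z →
    ∃ (g : ℤ) (j : ℕ), 0 < g ∧ (x, y, z) = T7^[j] (g, g, g) := by
  intro n
  induction n with
  | zero =>
    intro x y z hn h
    have := h.2.2.1.pos
    push_cast at hn
    omega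
  | succ n ih =>
    intro x y z hn h
    have hp := h.2.2.1.pos
    push_cast at hn
    rcases orb_step h with ⟨e1, e2⟩ | h'
    · refine ⟨z, 0, hp.2.2, ?_⟩
      subst e2
      subst e1
      rfl
    · obtain ⟨g, j, hg, hj⟩ := ih y z (x - y - z) (by omega) h'
      refine ⟨g, j + 1, hg, ?_⟩
      rw [Function.iterate_succ_apply', ← hj]
      simp only [T7]
      refine Prod.ext ?_ rfl
      simp only
      ring

theorem orb_T7 {x y z : ℤ} (h : Orb x y z) : Orb (x + y + z) x y := by
  obtain ⟨hzy, hyx, h1, h2, h3⟩ := h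
  have p1 := h1.pos
  refine ⟨hyx, by omega, ?_, ?_, ?_⟩
  · have := AR.s0 _ _ _ h1.rot.rot
    convert this using 1
    ring
  · have := AR.s0 _ _ _ h2.rot.rot
    convert this using 1 <;> ring
  · have := AR.s0 _ _ _ h3.rot.rot
    convert this using 1 <;> ring

theorem orb_iter {g : ℤ} (hg : 0 < g) (j : ℕ) :
    Orb (T7^[j] (g, g, g)).1 (T7^[j] (g, g, g)).2.1 (T7^[j] (g, g, g)).2.2 := by
  induction j with
  | zero =>
    refine ⟨le_refl _, le_refl _, AR.base g hg, ?_, ?_⟩
    · have := AR.s2 _ _ _ (AR.base g hg)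
      simp only [Function.iterate_zero, id]
      convert this using 1 <;> ring
    · have := AR.s1 _ _ _ (AR.base g hg)
      simp only [Function.iterate_zero, id]
      convert this using 1 <;> ring
  | succ j ih =>
    rw [Function.iterate_succ_apply']
    exact orb_T7 ih

theorem orb_iff {x y z : ℤ} : Orb x y z ↔
    ∃ (g : ℤ) (j : ℕ), 0 < g ∧ (x, y, z) = T7^[j] (g, g, g) := by
  constructor
  · intro h
    exact orb_main (x + y + z).toNat x y z (Int.self_le_toNat _) h
  · rintro ⟨g, j, hg, h⟩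
    have := orb_iter hg j
    rw [← h] at this
    exact this

end Run7.h452.R
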