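import Mathlib
import Pool.Agent.Run7.h452.R.Ar

/-!
The equation `u p u' q v r v' p' w q' w' = z r z'`, where `'` is a letter-to-letter involution: for
given lengths `a, b, c` of `u, v, w` it is solvable iff `(a+1, b+1, c+1)` is in the relation `AR`.
-/

set_option autoImplicit false

namespace Run7.h452.R

variable {τ : Type} {s : τ → τ}

/-- block -/
def blk (s : τ → τ) (u : List τ) (p q : τ) : List τ := u ++ p :: (u.map s ++ [q])

/-- the circular form of the equation -/
def Q (s : τ → τ) (p q r : τ) (u v w : List τ) : Prop :=
  ∃ Y : List τ, blk s u p q ++ (blk s v r (s p) ++ blk s w (s q) (s r)) = Y ++ Y.map s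

theorem map_map_inv (hs : ∀ x, s (s x) = x) (l : List τ) : (l.map s).map s = l := by
  rw [List.map_map]
  have : s ∘ s = id := funext hs
  rw [this, List.map_id]

theorem sq_rot (hs : ∀ x, s (s x) = x) {L1 L2 Y : List τ} (h : L1 ++ L2 = Y ++ Y.map s) :
    ∃ X : List τ, L2 ++ L1 = X ++ X.map s := by
  rcases List.append_eq_append_iff.1 h with ⟨a, h1, h2⟩ | ⟨c, h1, h2⟩
  · refine ⟨a ++ L1.map s, ?_⟩
    rw [h2, h1]
    simp only [List.map_append, map_map_inv hs, List.append_assoc]
  · refine ⟨L2 ++ c.map s, ?_⟩
    have h3 : Y = c.map s ++ L2.map s := by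
      rw [← map_map_inv hs Y, h2, List.map_append]
    rw [h1]
    simp only [List.map_append, map_map_inv hs, List.append_assoc]
    rw [h3]
    simp only [List.append_assoc]

theorem Q.rot (hs : ∀ x, s (s x) = x) {p q r : τ} {u v w : List τ} (h : Q s p q r u v w) :
    Q s r (s p) (s q) v w u := by
  obtain ⟨Y, hY⟩ := h
  obtain ⟨X, hX⟩ := sq_rot hs hY
  refine ⟨X, ?_⟩
  rw [← hX, hs, hs, List.append_assoc]

/-- the linear form of the equation -/
theorem Q_iff (hs : ∀ x, s (s x) = x) {p q r : τ} {u v w : List τ} : Q s p q r u v w ↔
    ∃ z : List τ, u ++ p :: (u.map s ++ q :: (v ++ r :: (v.map s ++ s p :: (w ++ s q :: w.map s)))) =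
      z ++ r :: z.map s := by
  constructor
  · rintro ⟨Y, hY⟩
    rcases List.eq_nil_or_concat Y with rfl | ⟨z, x, rfl⟩
    · simp [blk] at hY
    · refine ⟨z, ?_⟩
      have h1 : (u ++ p :: (u.map s ++ q :: (v ++ r :: (v.map s ++ s p :: (w ++ s q :: w.map s)))))
          ++ [s r] = (z ++ x :: z.map s) ++ [s x] := by
        simpa [blk] using hY
      obtain ⟨h2, h3⟩ := List.append_inj' h1 rfl
      have h4 : x = r := by
        have := congrArg s (List.cons.inj h3).1
        rw [hs, hs] at this
        exact this.symm
      rw [h2, h4]
  · rintro ⟨z, hz⟩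
    refine ⟨z ++ [r], ?_⟩
    have h1 := congrArg (fun l => l ++ [s r]) hz
    simpa [blk] using h1

/-! ### completeness -/

theorem red_complete (hs : ∀ x, s (s x) = x) {p q r : τ} {t R : List τ} {m : ℕ}
    (hR : R.length = 2 * m + 1)
    (h : ∃ z : List τ, t ++ p :: (t.map s ++ q :: R) = z ++ r :: z.map s) :
    ∃ u : List τ, u.length = t.length + m + 1 ∧
      ∃ z : List τ, u ++ p :: (u.map s ++ q :: R) = z ++ r :: z.map s := by
  obtain ⟨z, hz⟩ := h
  have hl := congrArg List.length hz
  simp only [List.length_append, List.length_cons, List.length_map, hR] at hl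
  -- split `z`
  have hz' : (t ++ [p]) ++ (t.map s ++ q :: R) = z ++ (r :: z.map s) := by
    simpa using hz
  obtain ⟨s0, hs0⟩ : ∃ s0, z = (t ++ [p]) ++ s0 := by
    rcases List.append_eq_append_iff.1 hz' with ⟨a, h1, -⟩ | ⟨c, h1, -⟩
    · exact ⟨a, h1⟩
    · have := congrArg List.length h1
      simp only [List.length_append, List.length_cons, List.length_nil] at this
      have hc : c = [] := by
        apply List.eq_nil_of_length_eq_zero
        omega
      subst hc
      exact ⟨[], by simpa using h1.symm⟩
  have hlen : s0.length = m := by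
    have := congrArg List.length hs0
    simp only [List.length_append, List.length_cons, List.length_nil] at this
    omega
  subst hs0
  have h1 : t.map s ++ q :: R = s0 ++ r :: (t.map s ++ s p :: s0.map s) := by
    have := hz'
    rw [List.append_assoc (t ++ [p]) s0] at this
    have := List.append_cancel_left this
    rw [this]
    simp
  refine ⟨s0.map s ++ s r :: t, ?_, (s0.map s ++ s r :: t) ++ p :: s0, ?_⟩
  · simp only [List.length_append, List.length_cons, List.length_map]
    omega
  · simp only [List.map_append, List.map_cons, map_map_inv hs, hs, List.append_assoc,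
      List.cons_append]
    rw [h1]

theorem Q_base (hs : ∀ x, s (s x) = x) (p q r : τ) (x : List τ) : Q s p q r x x x := by
  rw [Q_iff hs]
  refine ⟨x ++ p :: (x.map s ++ q :: x), ?_⟩
  simp [map_map_inv hs]

theorem Q_s0 (hs : ∀ x, s (s x) = x) {p q r : τ} {u v w : List τ} (h : Q s p q r u v w) :
    ∃ u' : List τ, u'.length = u.length + v.length + w.length + 2 ∧ Q s p q r u' v w := by
  rw [Q_iff hs] at h
  obtain ⟨u', hu, h'⟩ := red_complete (m := v.length + w.length + 1) hs (by
    simp only [List.length_append, List.length_cons, List.length_map]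
    omega) h
  exact ⟨u', by omega, (Q_iff hs).2 h'⟩

theorem Q_complete (hs : ∀ x, s (s x) = x) (x : τ) {A B C : ℤ} (h : AR A B C) : ∀ p q r : τ,
    ∃ u v w : List τ, (u.length : ℤ) + 1 = A ∧ (v.length : ℤ) + 1 = B ∧ (w.length : ℤ) + 1 = C ∧
      Q s p q r u v w := by
  induction h with
  | base g hg =>
    intro p q r
    refine ⟨List.replicate (g - 1).toNat x, List.replicate (g - 1).toNat x,
      List.replicate (g - 1).toNat x, ?_, ?_, ?_, Q_base hs _ _ _ _⟩ <;>
    · rw [List.length_replicate]; omega
  | s0 a b c _ ih =>
    intro p q r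
    obtain ⟨u, v, w, h1, h2, h3, h4⟩ := ih p q r
    obtain ⟨u', h5, h6⟩ := Q_s0 hs h4
    exact ⟨u', v, w, by rw [h5]; push_cast; omega, h2, h3, h6⟩
  | s1 a b c _ ih =>
    intro p q r
    obtain ⟨u, v, w, h1, h2, h3, h4⟩ := ih p q r
    obtain ⟨v', h5, h6⟩ := Q_s0 hs (h4.rot hs)
    have := (h6.rot hs).rot hs
    rw [hs, hs, hs] at this
    exact ⟨u, v', w, h1, by rw [h5]; push_cast; omega, h3, this⟩
  | s2 a b c _ ih =>
    intro p q r
    obtain ⟨u, v, w, h1, h2, h3, h4⟩ := ih p q r
    obtain ⟨w', h5, h6⟩ := Q_s0 hs ((h4.rot hs).rot hs)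
    have := h6.rot hs
    rw [hs, hs, hs] at this
    exact ⟨u, v, w', h1, h2, by rw [h5]; push_cast; omega, this⟩

/-! ### soundness -/

theorem red_sound (hs : ∀ x, s (s x) = x) {p q r : τ} {u R : List τ} {m : ℕ}
    (hR : R.length = 2 * m + 1) (hu : m + 1 ≤ u.length)
    (h : ∃ z : List τ, u ++ p :: (u.map s ++ q :: R) = z ++ r :: z.map s) :
    ∃ t : List τ, u.length = t.length + m + 1 ∧
      ∃ z : List τ, t ++ p :: (t.map s ++ q :: R) = z ++ r :: z.map s := by
  obtain ⟨z, hz⟩ := h
  have hl := congrArg List.length hz
  simp only [List.length_append, List.length_cons, List.length_map, hR] at hl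
  have hz' : (u ++ [p]) ++ (u.map s ++ q :: R) = z ++ (r :: z.map s) := by
    simpa using hz
  obtain ⟨s0, hs0⟩ : ∃ s0, z = (u ++ [p]) ++ s0 := by
    rcases List.append_eq_append_iff.1 hz' with ⟨a, h1, -⟩ | ⟨c, h1, -⟩
    · exact ⟨a, h1⟩
    · have := congrArg List.length h1
      simp only [List.length_append, List.length_cons, List.length_nil] at this
      have hc : c = [] := by
        apply List.eq_nil_of_length_eq_zero
        omega
      subst hc
      exact ⟨[], by simpa using h1.symm⟩
  have hlen : s0.length = m := by
    have := congrArg List.length hs0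
    simp only [List.length_append, List.length_cons, List.length_nil] at this
    omega
  subst hs0
  have h1 : u.map s ++ q :: R = (s0 ++ [r]) ++ (u.map s ++ s p :: s0.map s) := by
    have := hz'
    rw [List.append_assoc (u ++ [p]) s0] at this
    have := List.append_cancel_left this
    rw [this]
    simp
  obtain ⟨t0, ht0, ht1⟩ : ∃ t0, u.map s = (s0 ++ [r]) ++ t0 ∧
      t0 ++ q :: R = u.map s ++ s p :: s0.map s := by
    rcases List.append_eq_append_iff.1 h1 with ⟨a, h2, h3⟩ | ⟨c, h2, h3⟩
    · have := congrArg List.length h2
      simp only [List.length_append, List.length_cons, List.length_nil, List.length_map] at this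
      have ha : a = [] := by
        apply List.eq_nil_of_length_eq_zero
        omega
      subst ha
      rw [List.append_nil] at h2
      exact ⟨[], by rw [List.append_nil, h2], by simpa using h3⟩
    · exact ⟨c, h2, h3.symm⟩
  refine ⟨t0.map s, ?_, (t0.map s) ++ p :: s0, ?_⟩
  · have := congrArg List.length ht0
    simp only [List.length_append, List.length_cons, List.length_nil, List.length_map] at this ⊢
    omega
  · simp only [List.map_append, List.map_cons, map_map_inv hs, List.append_assoc,
      List.cons_append]
    rw [ht1, ht0]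
    simp

theorem get_mid (pre post : List τ) (c : τ) : (pre ++ c :: post)[pre.length]? = some c := by
  simp

theorem get_add (pre x : List τ) (i : ℕ) : (pre ++ x)[pre.length + i]? = x[i]? := by
  rw [List.getElem?_append_right (by omega)]
  congr 1
  omega

theorem get_blk (pre x post : List τ) (c : τ) {i : ℕ} (hi : i < x.length) :
    (pre ++ (x ++ c :: (x.map s ++ post)))[pre.length + i + x.length + 1]? =
      ((pre ++ (x ++ c :: (x.map s ++ post)))[pre.length + i]?).map s := by
  have e1 : pre.length + i + x.length + 1 = pre.length + (x.length + (i + 1)) := by omega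
  rw [e1, get_add, get_add, get_add, List.getElem?_append_left hi, List.getElem?_cons_succ,
    List.getElem?_append_left (by simpa using hi), List.getElem?_map]

/-- the six letters are distinct -/
def Dst (s : τ → τ) (p q r : τ) : Prop :=
  p ≠ q ∧ p ≠ r ∧ q ≠ r ∧ p ≠ s q ∧ p ≠ s r ∧ q ≠ s r

theorem Dst.rot (hs : ∀ x, s (s x) = x) {p q r : τ} (h : Dst s p q r) : Dst s r (s p) (s q) := by
  obtain ⟨h1, h2, h3, h4, h5, h6⟩ := h
  refine ⟨fun e => h5 ?_, fun e => h6 ?_, fun e => h1 ?_, fun e => h2 ?_, fun e => h3 ?_,
    fun e => h4 ?_⟩
  · rw [e, hs]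
  · rw [e, hs]
  · rw [← hs p, e, hs]
  · rw [hs] at e; exact e.symm
  · rw [hs] at e; exact e.symm
  · rw [hs] at e; rw [← e, hs]

/-- the equal case of the triangle region is impossible -/
theorem no_eq (hs : ∀ x, s (s x) = x) {p q r : τ} {u v w : List τ} (hd : Dst s p q r)
    (h : Q s p q r u v w) (h1 : u.length = v.length) (h2 : w.length < u.length) : False := by
  rw [Q_iff hs] at h
  obtain ⟨z, hz⟩ := h
  have hl := congrArg List.length hz
  simp only [List.length_append, List.length_cons, List.length_map] at hl
  set L := u ++ p :: (u.map s ++ q :: (v ++ r :: (v.map s ++ s p :: (w ++ s q :: w.map s)))) with hL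
  have F1 : ∀ i, i < z.length → L[i + z.length + 1]? = (L[i]?).map s := by
    intro i hi
    have := get_blk (s := s) [] z [] r hi
    rw [hz]
    simpa using this
  have a1 : L[u.length]? = some p := get_mid _ _ _
  have a2 := F1 u.length (by omega)
  rw [a1] at a2
  have a3 := get_blk (s := s) (u ++ p :: (u.map s ++ [q])) v (s p :: (w ++ s q :: w.map s)) r
    (i := w.length) (by omega)
  have e1 : (u ++ p :: (u.map s ++ [q])) ++ (v ++ r :: (v.map s ++ s p :: (w ++ s q :: w.map s))) =
      L := by
    rw [hL]; simp
  rw [e1] at a3
  simp only [List.length_append, List.length_cons, List.length_map, List.length_nil] at a3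
  have e2 : u.length + (u.length + (0 + 1) + 1) + w.length + v.length + 1 =
      u.length + z.length + 1 := by omega
  have e3 : u.length + (u.length + (0 + 1) + 1) + w.length = z.length := by omega
  rw [e2, e3, a2] at a3
  have a4 : L[z.length]? = some r := by
    rw [hz]
    exact get_mid _ _ _
  rw [a4] at a3
  simp only [Option.map_some, Option.some.injEq] at a3
  exact hd.2.1 (by rw [← hs p, a3, hs])

/-- the strict case of the triangle region is impossible -/
theorem no_lt (hs : ∀ x, s (s x) = x) {p q r : τ} {u v w : List τ} (hd : Dst s p q r)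
    (h : Q s p q r u v w) (h1 : v.length < u.length) (h2 : w.length < u.length)
    (h3 : u.length < v.length + w.length + 1) : False := by
  rw [Q_iff hs] at h
  obtain ⟨z, hz⟩ := h
  have hl := congrArg List.length hz
  simp only [List.length_append, List.length_cons, List.length_map] at hl
  set L := u ++ p :: (u.map s ++ q :: (v ++ r :: (v.map s ++ s p :: (w ++ s q :: w.map s)))) with hL
  have F1 : ∀ i, i < z.length → L[i + z.length + 1]? = (L[i]?).map s := by
    intro i hi
    have := get_blk (s := s) [] z [] r hi
    rw [hz]
    simpa using this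
  have inj : ∀ x y : τ, s x = s y → x = y := fun x y e => by rw [← hs x, e, hs]
  have optinj : ∀ (o : Option τ) (x : τ), some (s x) = o.map s → o = some x := by
    intro o x e
    rcases o with _ | y
    · simp at e
    · simp only [Option.map_some, Option.some.injEq] at e
      rw [inj _ _ e]
  have a1 : L[(u ++ p :: u.map s).length]? = some q := by
    have := get_mid (u ++ p :: u.map s)
      (v ++ r :: (v.map s ++ s p :: (w ++ s q :: w.map s))) q
    rw [hL]
    simpa using this
  have a2 := F1 (u ++ p :: u.map s).length (by
    simp only [List.length_append, List.length_cons, List.length_map]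
    omega)
  rw [a1] at a2
  simp only [List.length_append, List.length_cons, List.length_map, Option.map_some] at a2
  -- the block `w`
  have a3 := get_blk (s := s) (u ++ p :: (u.map s ++ q :: (v ++ r :: (v.map s ++ [s p])))) w []
    (s q) (i := u.length - v.length - 1) (by omega)
  have e1 : (u ++ p :: (u.map s ++ q :: (v ++ r :: (v.map s ++ [s p])))) ++
      (w ++ s q :: (w.map s ++ [])) = L := by
    rw [hL]; simp
  rw [e1] at a3
  simp only [List.length_append, List.length_cons, List.length_map, List.length_nil] at a3
  have i1 : u.length + (u.length + (v.length + (v.length + (0 + 1) + 1) + 1) + 1) +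
      (u.length - v.length - 1) + w.length + 1 = u.length + (u.length + 1) + z.length + 1 := by
    omega
  have i2 : u.length + (u.length + (v.length + (v.length + (0 + 1) + 1) + 1) + 1) +
      (u.length - v.length - 1) = (2 * u.length - w.length) + z.length + 1 := by
    omega
  rw [i1, i2, a2] at a3
  have a4 := optinj _ _ a3
  have a5 := F1 (2 * u.length - w.length) (by omega)
  rw [a4] at a5
  have a6 := optinj (L[2 * u.length - w.length]?) (s q) (by rw [hs]; exact a5)
  -- the block `u`
  have a7 := get_blk (s := s) [] u (q :: (v ++ r :: (v.map s ++ s p :: (w ++ s q :: w.map s)))) p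
    (i := u.length - w.length - 1) (by omega)
  simp only [List.nil_append, List.length_nil, Nat.zero_add] at a7
  rw [← hL] at a7
  have i3 : u.length - w.length - 1 + u.length + 1 = 2 * u.length - w.length := by omega
  rw [i3, a6] at a7
  have a8 := optinj _ _ a7
  have a9 := F1 (u.length - w.length - 1) (by omega)
  rw [a8, Option.map_some] at a9
  have b1 := get_mid (u ++ p :: (u.map s ++ q :: v)) (v.map s ++ s p :: (w ++ s q :: w.map s)) r
  have e4 : (u ++ p :: (u.map s ++ q :: v)) ++ r :: (v.map s ++ s p :: (w ++ s q :: w.map s)) =
      L := by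
    rw [hL]; simp
  rw [e4] at b1
  simp only [List.length_append, List.length_cons, List.length_map] at b1
  have i4 : u.length + (u.length + (v.length + 1) + 1) =
      u.length - w.length - 1 + z.length + 1 := by omega
  rw [i4, a9] at b1
  simp only [Option.some.injEq] at b1
  exact hd.2.2.2.2.2 (by rw [← b1, hs])

/-- the boundary case is impossible -/
theorem no_bd (hs : ∀ x, s (s x) = x) {p q r : τ} {u v w : List τ} (hd : Dst s p q r)
    (h : Q s p q r u v w) (h3 : u.length = v.length + w.length + 1) : False := by
  rw [Q_iff hs] at h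
  obtain ⟨z, hz⟩ := h
  have hl := congrArg List.length hz
  simp only [List.length_append, List.length_cons, List.length_map] at hl
  have a1 := get_mid (u ++ p :: u.map s)
      (v ++ r :: (v.map s ++ s p :: (w ++ s q :: w.map s))) q
  have a2 := get_mid z (z.map s) r
  have e : (u ++ p :: u.map s) ++ q :: (v ++ r :: (v.map s ++ s p :: (w ++ s q :: w.map s))) =
      z ++ r :: z.map s := by
    rw [← hz]; simp
  rw [e] at a1
  simp only [List.length_append, List.length_cons, List.length_map] at a1
  have i : u.length + (u.length + 1) = z.length := by omega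
  rw [i, a2] at a1
  simp only [Option.some.injEq] at a1
  exact hd.2.2.1 a1.symm

theorem Q_sound (hs : ∀ x, s (s x) = x) : ∀ (n : ℕ) (p q r : τ) (u v w : List τ),
    u.length + v.length + w.length ≤ n → Dst s p q r → Q s p q r u v w →
    AR (u.length + 1) (v.length + 1) (w.length + 1) := by
  intro n
  induction n using Nat.strong_induction_on with
  | _ n ih =>
    -- the case where the first word is the longest and the third is shorter
    have first : ∀ (p q r : τ) (u v w : List τ), u.length + v.length + w.length ≤ n →
        Dst s p q r → Q s p q r u v w → v.length ≤ u.length → w.length < u.length →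
        AR (u.length + 1) (v.length + 1) (w.length + 1) := by
      intro p q r u v w hn hd h h1 h2
      rcases lt_trichotomy u.length (v.length + w.length + 1) with h3 | h3 | h3
      · rcases Nat.lt_or_ge v.length u.length with h4 | h4
        · exact (no_lt hs hd h h4 h2 h3).elim
        · exact (no_eq hs hd h (by omega) h2).elim
      · exact (no_bd hs hd h h3).elim
      · rw [Q_iff hs] at h
        obtain ⟨t, ht, h'⟩ := red_sound (m := v.length + w.length + 1) hs (by
          simp only [List.length_append, List.length_cons, List.length_map]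
          omega) (by omega) h
        have := ih (t.length + v.length + w.length) (by omega) p q r t v w le_rfl hd
          ((Q_iff hs).2 h')
        have := AR.s0 _ _ _ this
        convert this using 1
        rw [ht]
        push_cast
        ring
    intro p q r u v w hn hd h
    by_cases he : u.length = v.length ∧ v.length = w.length
    · rw [he.1, he.2]
      exact AR.base _ (by positivity)
    · by_cases c1 : v.length ≤ u.length ∧ w.length < u.length
      · exact first p q r u v w hn hd h c1.1 c1.2
      · by_cases c2 : w.length ≤ v.length ∧ u.length < v.length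
        · exact (first _ _ _ v w u (by omega) (hd.rot hs) (h.rot hs) c2.1 c2.2).rot.rot
        · exact (first _ _ _ w u v (by omega) ((hd.rot hs).rot hs) ((h.rot hs).rot hs)
            (by omega) (by omega)).rot

end Run7.h452.R
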