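import Mathlib
import Pool.Agent.Run7.h452.R.Word

/-!
The regular system over an alphabet with two letters which defines the relation `AR`.
-/

set_option autoImplicit false

namespace Run7.h452.R

variable {A : Type}

/-- pairs of consecutive letters -/
def un : List A → List (A × A)
  | [] => []
  | [_] => []
  | x :: y :: l => (x, y) :: un l

/-- concatenation of pairs of letters -/
def fl (u : List (A × A)) : List A := u.flatMap (fun p => [p.1, p.2])

theorem un_length : ∀ u : List A, (un u).length = u.length / 2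
  | [] => by simp [un]
  | [_] => by simp [un]
  | x :: y :: l => by
    simp only [un, List.length_cons, un_length l]
    omega

theorem un_append : ∀ u v : List A, u.length % 2 = 0 → un (u ++ v) = un u ++ un v
  | [], v, _ => rfl
  | [_], v, h => by simp at h
  | x :: y :: l, v, h => by
    have h' : l.length % 2 = 0 := by
      simp only [List.length_cons] at h
      omega
    simp only [List.cons_append, un, un_append l v h']

theorem fl_length (u : List (A × A)) : (fl u).length = 2 * u.length := by
  induction u with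
  | nil => rfl
  | cons a u ih =>
    simp only [fl, List.flatMap_cons, List.length_append, List.length_cons, List.length_nil] at *
    omega

theorem fl_append (u v : List (A × A)) : fl (u ++ v) = fl u ++ fl v := by
  simp [fl]

theorem fl_cons (a : A × A) (v : List (A × A)) : fl (a :: v) = a.1 :: a.2 :: fl v := by
  simp [fl]

theorem un_cons2 (a b : A) (l : List A) : un (a :: b :: l) = (a, b) :: un l := rfl

/-- the six letters, as pairs of pairs of letters -/
def lp (c0 c1 : A) : (A × A) × (A × A) := ((c0, c0), (c0, c1))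
def lq (c0 c1 : A) : (A × A) × (A × A) := ((c0, c0), (c1, c0))
def lr (c0 c1 : A) : (A × A) × (A × A) := ((c0, c0), (c1, c1))

theorem dst {c0 c1 : A} (h : c0 ≠ c1) : Dst Prod.swap (lp c0 c1) (lq c0 c1) (lr c0 c1) := by
  unfold Dst lp lq lr
  simp [h, h.symm]

/-- the system -/
def Sys (c0 c1 : A) (u1 u2 v1 v2 w1 w2 z1 z2 : List A) : Prop :=
  u1 ++ c0 :: c0 :: (u2 ++ c0 :: c0 :: (v1 ++ c0 :: c0 :: (v2 ++ c0 :: c1 ::
    (w1 ++ c1 :: c0 :: w2)))) = z1 ++ c0 :: c0 :: z2 ∧
  z2 ++ c1 :: c1 :: z1 = u2 ++ c0 :: c1 :: (u1 ++ c1 :: c0 :: (v2 ++ c1 :: c1 ::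
    (v1 ++ c0 :: c0 :: (w2 ++ c0 :: c0 :: w1))))

theorem Sys.sound {c0 c1 : A} (h : c0 ≠ c1) {u1 u2 v1 v2 w1 w2 z1 z2 : List A} {a b c : ℕ}
    (hs : Sys c0 c1 u1 u2 v1 v2 w1 w2 z1 z2)
    (hu1 : u1.length = 2 * a) (hu2 : u2.length = 2 * a) (hv1 : v1.length = 2 * b)
    (hv2 : v2.length = 2 * b) (hw1 : w1.length = 2 * c) (hw2 : w2.length = 2 * c)
    (hz1 : z1.length = 2 * (a + b + c + 2)) (hz2 : z2.length = 2 * (a + b + c + 2)) :
    AR (a + 1) (b + 1) (c + 1) := by
  obtain ⟨e1, e2⟩ := hs
  have f1 := congrArg un e1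
  have f2 := congrArg un e2
  rw [un_append _ _ (by omega), un_cons2, un_append _ _ (by omega), un_cons2,
    un_append _ _ (by omega), un_cons2, un_append _ _ (by omega), un_cons2,
    un_append _ _ (by omega), un_cons2, un_append _ _ (by omega), un_cons2] at f1
  rw [un_append _ _ (by omega), un_cons2, un_append _ _ (by omega), un_cons2,
    un_append _ _ (by omega), un_cons2, un_append _ _ (by omega), un_cons2,
    un_append _ _ (by omega), un_cons2, un_append _ _ (by omega), un_cons2] at f2
  have lu1 := un_length u1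
  have lu2 := un_length u2
  have lv1 := un_length v1
  have lv2 := un_length v2
  have lw1 := un_length w1
  have lw2 := un_length w2
  have lz1 := un_length z1
  have lz2 := un_length z2
  have hQ : Q Prod.swap (lp c0 c1) (lq c0 c1) (lr c0 c1) ((un u1).zip (un u2))
      ((un v1).zip (un v2)) ((un w1).zip (un w2)) := by
    rw [Q_iff (fun x => Prod.swap_swap x)]
    refine ⟨(un z1).zip (un z2), ?_⟩
    rw [List.zip_swap, List.zip_swap, List.zip_swap, List.zip_swap]
    have k1 : (un u1).zip (un u2) ++ lp c0 c1 :: ((un u2).zip (un u1) ++ lq c0 c1 ::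
        ((un v1).zip (un v2) ++ lr c0 c1 :: ((un v2).zip (un v1) ++ (lp c0 c1).swap ::
        ((un w1).zip (un w2) ++ (lq c0 c1).swap :: (un w2).zip (un w1))))) =
        (un u1 ++ (c0, c0) :: (un u2 ++ (c0, c0) :: (un v1 ++ (c0, c0) :: (un v2 ++ (c0, c1) ::
          (un w1 ++ (c1, c0) :: un w2))))).zip
        (un u2 ++ (c0, c1) :: (un u1 ++ (c1, c0) :: (un v2 ++ (c1, c1) :: (un v1 ++ (c0, c0) ::
          (un w2 ++ (c0, c0) :: un w1))))) := by
      rw [List.zip_append (by omega), List.zip_cons_cons, List.zip_append (by omega),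
        List.zip_cons_cons, List.zip_append (by omega), List.zip_cons_cons,
        List.zip_append (by omega), List.zip_cons_cons, List.zip_append (by omega),
        List.zip_cons_cons]
      rfl
    have k2 : (un z1).zip (un z2) ++ lr c0 c1 :: (un z2).zip (un z1) =
        (un z1 ++ (c0, c0) :: un z2).zip (un z2 ++ (c1, c1) :: un z1) := by
      rw [List.zip_append (by omega), List.zip_cons_cons]
      rfl
    rw [k1, k2, f1, f2]
  have := Q_sound (fun x => Prod.swap_swap x) _ _ _ _ _ _ _ le_rfl (dst h) hQ
  simp only [List.length_zip] at this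
  have n1 : min (un u1).length (un u2).length = a := by omega
  have n2 : min (un v1).length (un v2).length = b := by omega
  have n3 : min (un w1).length (un w2).length = c := by omega
  rw [n1, n2, n3] at this
  exact this

theorem Sys.complete (c0 c1 : A) {a b c : ℕ} (h : AR (a + 1) (b + 1) (c + 1)) :
    ∃ u1 u2 v1 v2 w1 w2 z1 z2 : List A, Sys c0 c1 u1 u2 v1 v2 w1 w2 z1 z2 ∧
      u1.length = 2 * a ∧ u2.length = 2 * a ∧ v1.length = 2 * b ∧ v2.length = 2 * b ∧
      w1.length = 2 * c ∧ w2.length = 2 * c ∧ z1.length = 2 * (a + b + c + 2) ∧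
      z2.length = 2 * (a + b + c + 2) := by
  obtain ⟨u, v, w, hu, hv, hw, hQ⟩ := Q_complete (s := Prod.swap (α := A × A) (β := A × A))
    (fun x => Prod.swap_swap x) (lp c0 c1) h (lp c0 c1) (lq c0 c1) (lr c0 c1)
  rw [Q_iff (fun x => Prod.swap_swap x)] at hQ
  obtain ⟨z, hz⟩ := hQ
  have hu' : u.length = a := by omega
  have hv' : v.length = b := by omega
  have hw' : w.length = c := by omega
  have hl := congrArg List.length hz
  simp only [List.length_append, List.length_cons, List.length_map] at hl
  have hz' : z.length = a + b + c + 2 := by omega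
  have f1 : ∀ l : List ((A × A) × (A × A)), (l.map Prod.swap).map Prod.fst = l.map Prod.snd := by
    intro l
    rw [List.map_map]
    rfl
  have f2 : ∀ l : List ((A × A) × (A × A)), (l.map Prod.swap).map Prod.snd = l.map Prod.fst := by
    intro l
    rw [List.map_map]
    rfl
  have e1 := congrArg (fun l => fl (l.map Prod.fst)) hz
  have e2 := congrArg (fun l => fl (l.map Prod.snd)) hz
  simp only [List.map_append, List.map_cons, f1, f2, fl_append, fl_cons, lp, lq, lr,
    Prod.swap_prod_mk] at e1 e2
  refine ⟨fl (u.map Prod.fst), fl (u.map Prod.snd), fl (v.map Prod.fst), fl (v.map Prod.snd),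
    fl (w.map Prod.fst), fl (w.map Prod.snd), fl (z.map Prod.fst), fl (z.map Prod.snd),
    ⟨e1, e2.symm⟩, ?_⟩
  simp only [fl_length, List.length_map, hu', hv', hw', hz', and_self]

end Run7.h452.R
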