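import Mathlib
import Pool.Agent.Run7.h452.Sys
import Pool.Agent.Run7.h452.R.Ar

/-!
Relations on integers which are definable by existentially quantified conjunctions of linear
equations and of atoms `AR`.
-/

set_option autoImplicit false

namespace Run7.h452.R

open Run7.h452

/-- a system: atoms `AR y_i y_j y_k`, and linear equations `form = constant` -/
structure AS (α : Type) where
  atoms : List (ℕ × ℕ × ℕ)
  lens : List (Lin α × ℤ)

variable {α γ : Type}

/-- atoms and constraints -/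
def AS.Core (S : AS α) (x : α → ℤ) (y : ℕ → ℤ) : Prop :=
  (∀ a ∈ S.atoms, AR (y a.1) (y a.2.1) (y a.2.2)) ∧ (∀ c ∈ S.lens, Lin.ev x y c.1 = c.2)

def AS.Sat (S : AS α) (x : α → ℤ) (y : ℕ → ℤ) : Prop := (∀ i, 1 ≤ y i) ∧ S.Core x y

def AS.Holds (S : AS α) (x : α → ℤ) : Prop := ∃ y, S.Sat x y

/-- definable relation -/
def D7 (R : (α → ℤ) → Prop) : Prop := ∃ S : AS α, ∀ x, R x ↔ S.Holds x

theorem D7.congr {R R' : (α → ℤ) → Prop} (h : D7 R) (e : ∀ x, R x ↔ R' x) : D7 R' := by
  obtain ⟨S, h2⟩ := h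
  exact ⟨S, fun x => (e x).symm.trans (h2 x)⟩

def AS.ren (f : ℕ → ℕ) (S : AS α) : AS α :=
  ⟨S.atoms.map (fun a => (f a.1, f a.2.1, f a.2.2)), S.lens.map (fun c => (c.1.ren f, c.2))⟩

theorem AS.core_ren (f : ℕ → ℕ) (S : AS α) (x : α → ℤ) (y : ℕ → ℤ) :
    (S.ren f).Core x y ↔ S.Core x (y ∘ f) := by
  unfold AS.Core AS.ren
  constructor
  · rintro ⟨h1, h2⟩
    refine ⟨fun e he => ?_, fun c hc => ?_⟩
    · exact h1 _ (List.mem_map_of_mem (f := fun a : ℕ × ℕ × ℕ => (f a.1, f a.2.1, f a.2.2)) he)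
    · have := h2 _ (List.mem_map_of_mem (f := fun c : Lin α × ℤ => (c.1.ren f, c.2)) hc)
      simpa [Lin.ev_ren] using this
  · rintro ⟨h1, h2⟩
    refine ⟨fun e he => ?_, fun c hc => ?_⟩
    · obtain ⟨e', he', rfl⟩ := List.mem_map.1 he
      exact h1 e' he'
    · obtain ⟨c', hc', rfl⟩ := List.mem_map.1 hc
      simpa [Lin.ev_ren] using h2 c' hc'

theorem D7.and {R R' : (α → ℤ) → Prop} (h : D7 R) (h' : D7 R') :
    D7 (fun x => R x ∧ R' x) := by
  obtain ⟨S, h1⟩ := h
  obtain ⟨S', h2⟩ := h'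
  let A := S.ren (fun i => 2 * i)
  let B := S'.ren (fun i => 2 * i + 1)
  refine ⟨⟨A.atoms ++ B.atoms, A.lens ++ B.lens⟩, fun x => ?_⟩
  have key : ∀ s, (AS.mk (A.atoms ++ B.atoms) (A.lens ++ B.lens) : AS α).Core x s ↔
      S.Core x (s ∘ (fun i => 2 * i)) ∧ S'.Core x (s ∘ (fun i => 2 * i + 1)) := by
    intro s
    rw [← AS.core_ren, ← AS.core_ren]
    unfold AS.Core
    simp only [List.mem_append, or_imp, forall_and]
    tauto
  beta_reduce
  rw [h1, h2]
  constructor
  · rintro ⟨⟨s, hs1, hs2⟩, ⟨s', hs1', hs2'⟩⟩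
    refine ⟨fun n => if n % 2 = 0 then s (n / 2) else s' (n / 2), ?_, (key _).2 ⟨?_, ?_⟩⟩
    · intro i
      dsimp only
      split_ifs
      · exact hs1 _
      · exact hs1' _
    · have : (fun n => if n % 2 = 0 then s (n / 2) else s' (n / 2)) ∘ (fun i => 2 * i) = s := by
        funext i
        simp
      rw [this]
      exact hs2
    · have : (fun n => if n % 2 = 0 then s (n / 2) else s' (n / 2)) ∘
          (fun i => 2 * i + 1) = s' := by
        funext i
        have e1 : (2 * i + 1) % 2 = 1 := by omega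
        have e2 : (2 * i + 1) / 2 = i := by omega
        simp [e1, e2]
      rw [this]
      exact hs2'
  · rintro ⟨s, hs1, hs2⟩
    obtain ⟨c1, c2⟩ := (key s).1 hs2
    exact ⟨⟨_, fun i => hs1 _, c1⟩, ⟨_, fun i => hs1 _, c2⟩⟩

/-- substitution of affine functions for the parameters -/
theorem D7.comp {R : (α → ℤ) → Prop} (h : D7 R) {f : α → (γ → ℤ) → ℤ} (hf : ∀ a, Aff (f a)) :
    D7 (fun w => R (fun a => f a w)) := by
  obtain ⟨S, h1⟩ := h
  choose l c hl using hf
  -- transform a linear form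
  let T : Lin α → Lin γ := fun L => L.flatMap (fun t => Sum.elim
    (fun a => (l a).map (fun u => (Sum.inl u.1, t.2 * u.2))) (fun i => [(Sum.inr i, t.2)]) t.1)
  let C : Lin α → ℤ := fun L => (L.map (fun t => Sum.elim (fun a => t.2 * c a) (fun _ => 0) t.1)).sum
  have key : ∀ (w : γ → ℤ) (y : ℕ → ℤ) (L : Lin α),
      Lin.ev (fun a => f a w) y L = Lin.ev w y (T L) + C L := by
    intro w y L
    induction L with
    | nil => simp [Lin.ev, T, C]
    | cons t L ih =>
      rw [Lin.ev_cons, ih]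
      have e1 : T (t :: L) = Sum.elim
        (fun a => (l a).map (fun u => ((Sum.inl u.1 : γ ⊕ ℕ), t.2 * u.2)))
          (fun i => [(Sum.inr i, t.2)]) t.1 ++ T L := by
        simp [T]
      have e2 : C (t :: L) = Sum.elim (fun a => t.2 * c a) (fun _ => 0) t.1 + C L := by
        simp [C]
      rw [e1, e2, Lin.ev_append]
      rcases t with ⟨a | i, e⟩
      · simp only [Sum.elim_inl, hl, Lin.ev, List.map_map]
        have : ((l a).map ((fun t : (γ ⊕ ℕ) × ℤ => t.2 * Sum.elim w y t.1) ∘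
            fun u : γ × ℤ => (Sum.inl u.1, e * u.2))).sum =
            e * ((l a).map (fun t => t.2 * w t.1)).sum := by
          rw [← List.sum_map_mul_left]
          congr 1
          apply List.map_congr_left
          intro t _
          simp only [Function.comp, Sum.elim_inl]
          ring
        rw [this]
        ring
      · simp only [Sum.elim_inr, Lin.ev, List.map_cons, List.map_nil, List.sum_cons, List.sum_nil]
        ring
  refine ⟨⟨S.atoms, S.lens.map (fun d => (T d.1, d.2 - C d.1))⟩, fun w => ?_⟩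
  beta_reduce
  rw [h1]
  unfold AS.Holds AS.Sat AS.Core
  refine exists_congr fun s => and_congr Iff.rfl (and_congr Iff.rfl ?_)
  constructor
  · intro h d hd
    obtain ⟨d', hd', rfl⟩ := List.mem_map.1 hd
    have := h d' hd'
    rw [key] at this
    simp only
    linarith
  · intro h d hd
    have := h _ (List.mem_map_of_mem (f := fun d : Lin α × ℤ => (T d.1, d.2 - C d.1)) hd)
    simp only at this
    rw [key]
    linarith

/-- quantification over integers: an integer is a difference of two positive numbers -/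
theorem D7.exs {m : ℕ} {R : (α ⊕ Fin m → ℤ) → Prop} (h : D7 R) :
    D7 (fun x : α → ℤ => ∃ y : Fin m → ℤ, R (Sum.elim x y)) := by
  obtain ⟨S, h1⟩ := h
  let sh : ℕ → ℕ := fun i => 2 * m + i
  let T : Lin (α ⊕ Fin m) → Lin α := fun L => L.flatMap (fun t => Sum.elim
    (Sum.elim (fun a => [(Sum.inl a, t.2)])
      (fun j : Fin m => [(Sum.inr (2 * j.val), t.2), (Sum.inr (2 * j.val + 1), -t.2)]))
    (fun i => [(Sum.inr (sh i), t.2)]) t.1)
  have key : ∀ (x : α → ℤ) (y : ℕ → ℤ) (L : Lin (α ⊕ Fin m)),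
      Lin.ev x y (T L) =
        Lin.ev (Sum.elim x (fun j : Fin m => y (2 * j.val) - y (2 * j.val + 1))) (y ∘ sh) L := by
    intro x y L
    induction L with
    | nil => simp [Lin.ev, T]
    | cons t L ih =>
      rw [Lin.ev_cons, ← ih]
      rcases t with ⟨(a | j) | i, e⟩
      · simp [T, Lin.ev]
      · simp [T, Lin.ev]
        ring
      · simp [T, Lin.ev]
  refine ⟨⟨S.atoms.map (fun a => (sh a.1, sh a.2.1, sh a.2.2)),
    S.lens.map (fun d => (T d.1, d.2))⟩, fun x => ?_⟩
  constructor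
  · rintro ⟨y, hy⟩
    obtain ⟨s, hs1, hs2, hs3⟩ := (h1 _).1 hy
    let u : Fin m → ℤ := fun j => max (y j) 0 + 1
    let w : Fin m → ℤ := fun j => max (-y j) 0 + 1
    have hu : ∀ j, 1 ≤ u j := fun j => by
      have := le_max_right (y j) 0
      simp only [u]; omega
    have hw : ∀ j, 1 ≤ w j := fun j => by
      have := le_max_right (-y j) 0
      simp only [w]; omega
    have huw : ∀ j, u j - w j = y j := fun j => by
      simp only [u, w]; omega
    let s' : ℕ → ℤ := fun n => if h : n < 2 * m then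
      (if n % 2 = 0 then u ⟨n / 2, by omega⟩ else w ⟨n / 2, by omega⟩) else s (n - 2 * m)
    have hsh : s' ∘ sh = s := by
      funext i
      simp only [Function.comp, s', sh]
      rw [dif_neg (by omega)]
      congr 1
      omega
    have hsh' : ∀ i, s' (sh i) = s i := fun i => congrFun hsh i
    have e0 : ∀ j : Fin m, s' (2 * j.val) = u j := by
      intro j
      simp only [s']
      rw [dif_pos (by omega), if_pos (by omega)]
      congr 1
      apply Fin.ext
      simp
    have e1 : ∀ j : Fin m, s' (2 * j.val + 1) = w j := by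
      intro j
      simp only [s']
      rw [dif_pos (by omega), if_neg (by omega)]
      congr 1
      apply Fin.ext
      simp
      omega
    refine ⟨s', ?_, ?_, ?_⟩
    · intro i
      simp only [s']
      split_ifs
      · exact hu _
      · exact hw _
      · exact hs1 _
    · intro e he
      obtain ⟨e', he', rfl⟩ := List.mem_map.1 he
      simp only [hsh']
      exact hs2 e' he'
    · intro d hd
      obtain ⟨d', hd', rfl⟩ := List.mem_map.1 hd
      simp only
      rw [key, hsh]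
      have : (fun j : Fin m => s' (2 * j.val) - s' (2 * j.val + 1)) = y := by
        funext j
        rw [e0, e1]
        exact huw j
      rw [this]
      exact hs3 d' hd'
  · rintro ⟨s, hs1, hs2, hs3⟩
    refine ⟨fun j : Fin m => s (2 * j.val) - s (2 * j.val + 1), (h1 _).2
      ⟨s ∘ sh, fun i => hs1 _, ?_, ?_⟩⟩
    · intro e he
      exact hs2 _ (List.mem_map_of_mem
        (f := fun a : ℕ × ℕ × ℕ => (sh a.1, sh a.2.1, sh a.2.2)) he)
    · intro d hd
      have := hs3 _ (List.mem_map_of_mem (f := fun d : Lin (α ⊕ Fin m) × ℤ => (T d.1, d.2)) hd)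
      simp only at this
      rw [key] at this
      exact this

/-! ### linear equations and inequalities -/

theorem D7.eq {f g : (α → ℤ) → ℤ} (hf : Aff f) (hg : Aff g) : D7 (fun x => f x = g x) := by
  obtain ⟨l, c, h⟩ := hf.sub hg
  refine ⟨⟨[], [(l.map (fun t => (Sum.inl t.1, t.2)), -c)]⟩, fun x => ?_⟩
  have key : ∀ s : ℕ → ℤ, Lin.ev x s (l.map (fun t => (Sum.inl t.1, t.2))) =
      (l.map (fun t => t.2 * x t.1)).sum := by
    intro s
    simp [Lin.ev, List.map_map, Function.comp_def]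
  have hx := h x
  constructor
  · intro e
    refine ⟨fun _ => 1, by simp, by simp, ?_⟩
    intro d hd
    rw [List.mem_singleton] at hd
    subst hd
    simp only
    rw [key]
    linarith
  · rintro ⟨s, -, -, h3⟩
    have := h3 _ (List.mem_singleton.2 rfl)
    simp only at this
    rw [key] at this
    linarith

theorem D7.lt {f g : (α → ℤ) → ℤ} (hf : Aff f) (hg : Aff g) : D7 (fun x => f x < g x) := by
  obtain ⟨l, c, h⟩ := hg.sub hf
  refine ⟨⟨[], [((Sum.inr 0, -1) :: l.map (fun t => (Sum.inl t.1, t.2)), -c)]⟩, fun x => ?_⟩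
  have key : ∀ s : ℕ → ℤ, Lin.ev x s
      ((Sum.inr 0, -1) :: l.map (fun t => (Sum.inl t.1, t.2))) =
      (l.map (fun t => t.2 * x t.1)).sum - s 0 := by
    intro s
    simp [Lin.ev, List.map_map, Function.comp_def]
    ring
  have hx := h x
  constructor
  · intro e
    refine ⟨fun _ => g x - f x, ?_, by simp, ?_⟩
    · intro i
      beta_reduce
      omega
    intro d hd
    rw [List.mem_singleton] at hd
    subst hd
    simp only
    rw [key]
    linarith
  · rintro ⟨s, hs, -, h3⟩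
    have := h3 _ (List.mem_singleton.2 rfl)
    simp only at this
    rw [key] at this
    have h0 := hs 0
    linarith

theorem D7.le {f g : (α → ℤ) → ℤ} (hf : Aff f) (hg : Aff g) : D7 (fun x => f x ≤ g x) :=
  (D7.lt hf (hg.add (Aff.const 1))).congr fun x => by
    constructor <;> intro h <;> omega

/-- the relation `AR` is definable -/
theorem D7.ar {f g h : (α → ℤ) → ℤ} (hf : Aff f) (hg : Aff g) (hh : Aff h) :
    D7 (fun x => AR (f x) (g x) (h x)) := by
  have base : D7 (fun x : Fin 3 → ℤ => AR (x 0) (x 1) (x 2)) := by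
    refine ⟨⟨[(0, 1, 2)], [([(Sum.inr 0, 1), (Sum.inl 0, -1)], 0),
      ([(Sum.inr 1, 1), (Sum.inl 1, -1)], 0), ([(Sum.inr 2, 1), (Sum.inl 2, -1)], 0)]⟩,
      fun x => ?_⟩
    unfold AS.Holds AS.Sat AS.Core
    simp only [List.mem_cons, List.not_mem_nil, or_false, forall_eq_or_imp, forall_eq, Lin.ev,
      List.map_cons, List.map_nil, List.sum_cons, List.sum_nil, Sum.elim_inl, Sum.elim_inr]
    constructor
    · intro hx
      have hp := hx.pos
      refine ⟨fun i => if i = 0 then x 0 else if i = 1 then x 1 else x 2, ?_, ?_, ?_, ?_, ?_⟩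
      · intro i
        dsimp only
        split_ifs <;> omega
      · simpa using hx
      · simp
      · simp
      · simp
    · rintro ⟨y, -, hy, e0, e1, e2⟩
      have e0' : y 0 = x 0 := by linarith
      have e1' : y 1 = x 1 := by linarith
      have e2' : y 2 = x 2 := by linarith
      rw [← e0', ← e1', ← e2']
      exact hy
  exact D7.comp base (f := ![f, g, h]) (by intro i; fin_cases i; exacts [hf, hg, hh])

theorem D7.rel2 {R : ℤ → ℤ → Prop} (h : D7 (fun x : Fin 2 → ℤ => R (x 0) (x 1)))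
    {f g : (γ → ℤ) → ℤ} (hf : Aff f) (hg : Aff g) : D7 (fun w => R (f w) (g w)) :=
  D7.comp h (f := ![f, g]) (by intro i; fin_cases i; exacts [hf, hg])

theorem D7.rel3 {R : ℤ → ℤ → ℤ → Prop}
    (h : D7 (fun x : Fin 3 → ℤ => R (x 0) (x 1) (x 2)))
    {f g l : (γ → ℤ) → ℤ} (hf : Aff f) (hg : Aff g) (hl : Aff l) :
    D7 (fun w => R (f w) (g w) (l w)) :=
  D7.comp h (f := ![f, g, l]) (by intro i; fin_cases i; exacts [hf, hg, hl])

theorem D7.rel4 {R : ℤ → ℤ → ℤ → ℤ → Prop}
    (h : D7 (fun x : Fin 4 → ℤ => R (x 0) (x 1) (x 2) (x 3)))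
    {f g l m : (γ → ℤ) → ℤ} (hf : Aff f) (hg : Aff g) (hl : Aff l) (hm : Aff m) :
    D7 (fun w => R (f w) (g w) (l w) (m w)) :=
  D7.comp h (f := ![f, g, l, m]) (by intro i; fin_cases i; exacts [hf, hg, hl, hm])

theorem D7.true : D7 (fun _ : γ → ℤ => True) :=
  ⟨⟨[], []⟩, fun x => ⟨fun _ => ⟨fun _ => 1, by simp, by simp [AS.Core]⟩, fun _ => trivial⟩⟩

/-- divisibility of a nonnegative number by a positive number -/
def Dv (m x : ℤ) : Prop := 0 < m ∧ 0 ≤ x ∧ m ∣ x

theorem D7.dv {f g : (α → ℤ) → ℤ} (hf : Aff f) (hg : Aff g) :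
    D7 (fun x => Dv (f x) (g x)) :=
  (D7.ar ((hg.smul 2).add hf) hf hf).congr fun _ => AR_dvd

/-- divisibility of an integer by a positive number -/
def Dz (m x : ℤ) : Prop := 0 < m ∧ m ∣ x

theorem D7.dz {f g : (α → ℤ) → ℤ} (hf : Aff f) (hg : Aff g) :
    D7 (fun x => Dz (f x) (g x)) := by
  have base : D7 (fun x : Fin 2 → ℤ => Dz (x 0) (x 1)) := by
    have m : Aff (fun w : Fin 2 ⊕ Fin 1 → ℤ => w (Sum.inl 0)) := Aff.var _
    have x : Aff (fun w : Fin 2 ⊕ Fin 1 → ℤ => w (Sum.inl 1)) := Aff.var _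
    have a : Aff (fun w : Fin 2 ⊕ Fin 1 → ℤ => w (Sum.inr 0)) := Aff.var _
    refine (D7.exs ((D7.dv m a).and (D7.dv m (x.add a)))).congr fun x => ?_
    constructor
    · rintro ⟨y, ⟨h1, h2, h3⟩, ⟨h4, h5, h6⟩⟩
      simp only [Sum.elim_inl, Sum.elim_inr] at *
      exact ⟨h1, (Int.dvd_iff_dvd_of_dvd_add h6).2 h3⟩
    · rintro ⟨h1, h2⟩
      refine ⟨fun _ => x 0 * |x 1|, ⟨h1, ?_, ?_⟩, ⟨h1, ?_, ?_⟩⟩
      · exact mul_nonneg h1.le (abs_nonneg _)
      · exact Dvd.intro _ rfl
      · change 0 ≤ x 1 + x 0 * |x 1|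
        have h3 := neg_abs_le (x 1)
        have h4 : |x 1| ≤ x 0 * |x 1| := by
          have := abs_nonneg (x 1)
          nlinarith
        linarith
      · exact dvd_add h2 (Dvd.intro _ rfl)
  exact D7.rel2 base hf hg

/-- the orbit relation is definable -/
theorem D7.orb {f g h : (α → ℤ) → ℤ} (hf : Aff f) (hg : Aff g) (hh : Aff h) :
    D7 (fun x => Orb (f x) (g x) (h x)) :=
  (D7.le hh hg).and ((D7.le hg hf).and ((D7.ar hf hg hh).and
    ((D7.ar ((hf.smul 2).sub hg) ((hg.smul 2).sub hh) (((hh.smul 3).add hg).sub hf)).and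
    (D7.ar ((hf.smul 2).sub hh) (((hg.smul 3).sub hf).add hh)
      ((hf.sub (hg.smul 2)).add (hh.smul 2))))))

end Run7.h452.R
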