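import Mathlib
import Pool.Agent.Run7.h452.R.Cls

/-!
A definable relation which bounds a number by a cubic polynomial of another one, but by no linear
function of it.
-/

set_option autoImplicit false

namespace Run7.h452.R

open Run7.h452

theorem T7_add (x y : ℤ × ℤ × ℤ) : T7 (x + y) = T7 x + T7 y := by
  simp only [T7]
  refine Prod.ext ?_ (Prod.ext ?_ ?_) <;> simp <;> ring

theorem T7_iter_add (n : ℕ) (x y : ℤ × ℤ × ℤ) : T7^[n] (x + y) = T7^[n] x + T7^[n] y := by
  induction n with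
  | zero => rfl
  | succ n ih =>
    rw [Function.iterate_succ_apply', Function.iterate_succ_apply', Function.iterate_succ_apply',
      ih, T7_add]

theorem T7_smul (c : ℤ) (x : ℤ × ℤ × ℤ) : T7 (c • x) = c • T7 x := by
  simp only [T7]
  refine Prod.ext ?_ (Prod.ext ?_ ?_) <;> simp <;> ring

theorem T7_iter_smul (n : ℕ) (c : ℤ) (x : ℤ × ℤ × ℤ) : T7^[n] (c • x) = c • T7^[n] x := by
  induction n with
  | zero => rfl
  | succ n ih =>
    rw [Function.iterate_succ_apply', Function.iterate_succ_apply', ih, T7_smul]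

/-- the primitive orbit -/
def E (j : ℕ) : ℤ × ℤ × ℤ := T7^[j] (1, 1, 1)

theorem E_smul (g : ℤ) (j : ℕ) : T7^[j] (g, g, g) = g • E j := by
  have : ((g, g, g) : ℤ × ℤ × ℤ) = g • ((1, 1, 1) : ℤ × ℤ × ℤ) := by simp
  rw [this, T7_iter_smul]
  rfl

theorem E_succ (j : ℕ) : E (j + 1) = T7 (E j) := Function.iterate_succ_apply' _ _ _

theorem E_bd (j : ℕ) : 1 ≤ (E j).2.2 ∧ (E j).2.2 ≤ (E j).2.1 ∧ (E j).2.1 ≤ (E j).1 ∧
    (E j).2.1 ≤ 3 * (E j).2.2 ∧ (E j).1 ≤ 3 * (E j).2.1 := by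
  induction j with
  | zero => simp [E]
  | succ j ih =>
    rw [E_succ]
    simp only [T7]
    omega

/-- componentwise order -/
def Le3 (x y : ℤ × ℤ × ℤ) : Prop := x.1 ≤ y.1 ∧ x.2.1 ≤ y.2.1 ∧ x.2.2 ≤ y.2.2

theorem T7_mono {x y : ℤ × ℤ × ℤ} (h : Le3 x y) : Le3 (T7 x) (T7 y) := by
  obtain ⟨h1, h2, h3⟩ := h
  simp only [Le3, T7]
  omega

theorem T7_iter_mono (n : ℕ) {x y : ℤ × ℤ × ℤ} (h : Le3 x y) : Le3 (T7^[n] x) (T7^[n] y) := by
  induction n with
  | zero => exact h
  | succ n ih =>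
    rw [Function.iterate_succ_apply', Function.iterate_succ_apply']
    exact T7_mono ih

theorem E_add (j m : ℕ) : E (j + m) = T7^[j] (E m) := by
  unfold E
  rw [Function.iterate_add_apply]

theorem E_mul (j m : ℕ) : (E m).1 * (E j).1 ≤ 9 * (E (j + m)).1 := by
  have b := E_bd m
  have b' := E_bd j
  have h1 : Le3 ((E m).2.2 • ((1, 1, 1) : ℤ × ℤ × ℤ)) (E m) := by
    simp only [Le3, Prod.smul_fst, Prod.smul_snd, smul_eq_mul, mul_one]
    omega
  have h2 := (T7_iter_mono j h1).1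
  rw [T7_iter_smul, ← E_add] at h2
  simp only [Prod.smul_fst, smul_eq_mul] at h2
  have h3 : (T7^[j] ((1, 1, 1) : ℤ × ℤ × ℤ)).1 = (E j).1 := rfl
  rw [h3] at h2
  have h4 : (E m).1 ≤ 9 * (E m).2.2 := by omega
  have h5 : 0 ≤ (E j).1 := by omega
  nlinarith [mul_le_mul_of_nonneg_right h4 h5]

/-! ### the matrix argument -/

/-- `T7` as a matrix -/
def TM : Matrix (Fin 3) (Fin 3) ℤ := !![1, 1, 1; 1, 0, 0; 0, 1, 0]

/-- triples as vectors -/
def vec (x : ℤ × ℤ × ℤ) : Fin 3 → ℤ := ![x.1, x.2.1, x.2.2]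

theorem TM_vec (x : ℤ × ℤ × ℤ) : TM.mulVec (vec x) = vec (T7 x) := by
  funext i
  fin_cases i <;> simp [TM, vec, T7, Matrix.mulVec, dotProduct, Fin.sum_univ_three]

theorem TM_pow_vec (n : ℕ) (x : ℤ × ℤ × ℤ) : (TM ^ n).mulVec (vec x) = vec (T7^[n] x) := by
  induction n with
  | zero => simp
  | succ n ih =>
    rw [pow_succ', ← Matrix.mulVec_mulVec, ih, TM_vec, Function.iterate_succ_apply']

theorem TM_det : TM.det = 1 := by
  rw [Matrix.det_fin_three]
  simp [TM]

theorem TM_sq : TM ^ 2 = !![2, 2, 1; 1, 1, 1; 1, 0, 0] := by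
  rw [pow_two]
  ext i j
  fin_cases i <;> fin_cases j <;> simp [TM, Matrix.mul_apply, Fin.sum_univ_three]

/-- the polynomial in `T` which maps `e₁` to `(x, y, z)` -/
def GM (x y z : ℤ) : Matrix (Fin 3) (Fin 3) ℤ :=
  (x - y - z) • (1 : Matrix (Fin 3) (Fin 3) ℤ) + (y - z) • TM + z • TM ^ 2

theorem GM_eq (x y z : ℤ) :
    GM x y z = !![x, y + z, y; y, x - y, z; z, y - z, x - y - z] := by
  unfold GM
  rw [TM_sq, Matrix.one_fin_three]
  ext i j
  fin_cases i <;> fin_cases j <;> simp [TM] <;> ring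

theorem GM_comm (x y z : ℤ) : Commute (GM x y z) TM := by
  unfold GM
  refine Commute.add_left (Commute.add_left ?_ ?_) ?_
  · exact (Commute.one_left TM).smul_left _
  · exact (Commute.refl TM).smul_left _
  · exact ((Commute.refl TM).pow_left 2).smul_left _

/-- matrices which commute with `T` are determined by the image of `e₁` -/
theorem eq_of_commute {X Y : Matrix (Fin 3) (Fin 3) ℤ} (hX : Commute X TM) (hY : Commute Y TM)
    (h1 : X.mulVec (vec (1, 0, 0)) = Y.mulVec (vec (1, 0, 0))) : X = Y := by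
  have e2 : X.mulVec (vec (1, 1, 0)) = Y.mulVec (vec (1, 1, 0)) := by
    have : vec (1, 1, 0) = TM.mulVec (vec (1, 0, 0)) := by rw [TM_vec]; rfl
    rw [this, Matrix.mulVec_mulVec, Matrix.mulVec_mulVec, hX.eq, hY.eq, ← Matrix.mulVec_mulVec,
      ← Matrix.mulVec_mulVec, h1]
  have e3 : X.mulVec (vec (2, 1, 1)) = Y.mulVec (vec (2, 1, 1)) := by
    have : vec (2, 1, 1) = TM.mulVec (vec (1, 1, 0)) := by rw [TM_vec]; rfl
    rw [this, Matrix.mulVec_mulVec, Matrix.mulVec_mulVec, hX.eq, hY.eq, ← Matrix.mulVec_mulVec,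
      ← Matrix.mulVec_mulVec, e2]
  ext i j
  have a1 := congrFun h1 i
  have a2 := congrFun e2 i
  have a3 := congrFun e3 i
  simp only [Matrix.mulVec, dotProduct, Fin.sum_univ_three, vec, Matrix.cons_val_zero,
    Matrix.cons_val_one, Matrix.cons_val, mul_one, mul_zero, add_zero] at a1 a2 a3
  fin_cases j
  · fin_cases i <;> simpa using a1
  · fin_cases i <;> simp at a1 a2 ⊢ <;> linarith
  · fin_cases i <;> simp at a1 a2 a3 ⊢ <;> linarith

theorem first_coord {n : ℕ} {x y z : ℤ} (h : T7^[n] (x, y, z) = (1, 1, 1)) :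
    4 * (E n).1 = 4 * (x * x) - 10 * (x * y) - 6 * (x * z) + 8 * (y * y) + 2 * (y * z) +
      6 * (z * z) := by
  have h1 : TM ^ n * GM x y z = TM ^ 2 - 1 := by
    apply eq_of_commute
    · exact ((Commute.refl TM).pow_left n).mul_left (GM_comm x y z)
    · exact ((Commute.refl TM).pow_left 2).sub_left (Commute.one_left TM)
    · rw [← Matrix.mulVec_mulVec]
      have : (GM x y z).mulVec (vec (1, 0, 0)) = vec (x, y, z) := by
        rw [GM_eq]
        funext i
        fin_cases i <;> simp [vec, Matrix.mulVec, dotProduct, Fin.sum_univ_three]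
      rw [this, TM_pow_vec, h, TM_sq]
      funext i
      fin_cases i <;> simp [vec, Matrix.mulVec, dotProduct, Fin.sum_univ_three]
  have h2 : (TM ^ 2 - 1 : Matrix (Fin 3) (Fin 3) ℤ) = !![1, 2, 1; 1, 0, 1; 1, 0, -1] := by
    rw [TM_sq, Matrix.one_fin_three]
    ext i j
    fin_cases i <;> fin_cases j <;> simp
  have hdet : (GM x y z).det = 4 := by
    have := congrArg Matrix.det h1
    have h5 : (!![1, 2, 1; 1, 0, 1; 1, 0, -1] : Matrix (Fin 3) (Fin 3) ℤ).det = 4 := by
      rw [Matrix.det_fin_three]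
      simp
    rw [Matrix.det_mul, Matrix.det_pow, TM_det, one_pow, one_mul, h2, h5] at this
    exact this
  have h3 : (4 : ℤ) • TM ^ n = (TM ^ 2 - 1) * (GM x y z).adjugate := by
    rw [← h1, mul_assoc, Matrix.mul_adjugate, hdet, Matrix.mul_smul, mul_one]
  have h4 := congrFun (congrArg (fun M => Matrix.mulVec M (vec (1, 1, 1))) h3) 0
  simp only [Matrix.smul_mulVec, TM_pow_vec] at h4
  rw [h2, GM_eq, Matrix.adjugate_fin_three] at h4
  simp [vec, Matrix.mulVec, dotProduct, Fin.sum_univ_three, Matrix.mul_apply] at h4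
  have h5 : (E n).1 = (T7^[n] (1, 1, 1)).1 := rfl
  rw [h5, h4]
  ring

theorem first_bound {n : ℕ} {x y z H : ℤ} (h : T7^[n] (x, y, z) = (1, 1, 1))
    (hx : |x| ≤ H) (hy : |y| ≤ H) (hz : |z| ≤ H) : (E n).1 ≤ 9 * (H * H) := by
  have e := first_coord h
  have H0 : 0 ≤ H := le_trans (abs_nonneg x) hx
  have m : ∀ {u w : ℤ}, |u| ≤ H → |w| ≤ H → |u * w| ≤ H * H := by
    intro u w hu hw
    rw [abs_mul]
    exact mul_le_mul hu hw (abs_nonneg _) H0
  have xx := abs_le.1 (m hx hx)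
  have xy := abs_le.1 (m hx hy)
  have xz := abs_le.1 (m hx hz)
  have yy := abs_le.1 (m hy hy)
  have yz := abs_le.1 (m hy hz)
  have zz := abs_le.1 (m hz hz)
  linarith

/-! ### the bounding relation -/

/-- a vector of the orbits whose multiplier is at most `K` -/
def OK (K x y z : ℤ) : Prop := Orb x y z ∧ ∃ y' : Fin 3 → ℤ, Dz x (y' 0) ∧ Dz y (y' 1) ∧
  Dz z (y' 2) ∧ 1 ≤ y' 0 + y' 1 + y' 2 ∧ y' 0 + y' 1 + y' 2 ≤ K

theorem OK.sound {K x y z : ℤ} (h : OK K x y z) :
    ∃ (g : ℤ) (j : ℕ), 1 ≤ g ∧ g ≤ K ∧ (x, y, z) = g • E j := by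
  obtain ⟨h1, w, ⟨-, a, ha⟩, ⟨-, b, hb⟩, ⟨-, c, hc⟩, h5, h6⟩ := h
  obtain ⟨g, j, hg, hj⟩ := orb_iff.1 h1
  rw [E_smul] at hj
  refine ⟨g, j, hg, ?_, hj⟩
  have e1 : x = g * (E j).1 := congrArg Prod.fst hj
  have e2 : y = g * (E j).2.1 := congrArg (fun t => t.2.1) hj
  have e3 : z = g * (E j).2.2 := congrArg (fun t => t.2.2) hj
  have hd : g ∣ w 0 + w 1 + w 2 := by
    rw [ha, hb, hc, e1, e2, e3]
    exact ⟨(E j).1 * a + (E j).2.1 * b + (E j).2.2 * c, by ring⟩
  exact le_trans (Int.le_of_dvd (by omega) hd) h6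

theorem E_bezout (j : ℕ) : ∃ a b c : ℤ, (E j).1 * a + (E j).2.1 * b + (E j).2.2 * c = 1 := by
  induction j with
  | zero => exact ⟨1, 0, 0, by simp [E]⟩
  | succ j ih =>
    obtain ⟨a, b, c, h⟩ := ih
    refine ⟨c, a - c, b - c, ?_⟩
    rw [E_succ]
    simp only [T7]
    linarith

theorem OK.complete {g K : ℤ} (j : ℕ) (hg : 1 ≤ g) (hK : g ≤ K) :
    OK K (g • E j).1 (g • E j).2.1 (g • E j).2.2 := by
  have b := E_bd j
  obtain ⟨a, b', c, h⟩ := E_bezout j
  refine ⟨?_, ![(g • E j).1 * a, (g • E j).2.1 * b', (g • E j).2.2 * c], ?_, ?_, ?_, ?_, ?_⟩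
  · rw [← E_smul]
    exact orb_iter (by omega) j
  · refine ⟨?_, Dvd.intro _ rfl⟩
    simp only [Prod.smul_fst, smul_eq_mul]
    exact mul_pos (by omega) (by omega)
  · refine ⟨?_, Dvd.intro _ rfl⟩
    simp only [Prod.smul_snd, Prod.smul_fst, smul_eq_mul]
    exact mul_pos (by omega) (by omega)
  · refine ⟨?_, Dvd.intro _ rfl⟩
    simp only [Prod.smul_snd, smul_eq_mul]
    exact mul_pos (by omega) (by omega)
  · have : (g • E j).1 * a + (g • E j).2.1 * b' + (g • E j).2.2 * c = g := by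
      simp only [Prod.smul_fst, Prod.smul_snd, smul_eq_mul]
      linear_combination g * h
    simp only [Matrix.cons_val_zero, Matrix.cons_val_one, Matrix.cons_val]
    omega
  · have : (g • E j).1 * a + (g • E j).2.1 * b' + (g • E j).2.2 * c = g := by
      simp only [Prod.smul_fst, Prod.smul_snd, smul_eq_mul]
      linear_combination g * h
    simp only [Matrix.cons_val_zero, Matrix.cons_val_one, Matrix.cons_val]
    omega

/-- coordinate of one of the four vectors -/
def co (X : Fin 12 → ℤ) (i : Fin 4) (l : Fin 3) : ℤ := X ⟨3 * i.val + l.val, by omega⟩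

/-- the bounding relation -/
def UB (K Z : ℤ) : Prop := ∃ X : Fin 12 → ℤ,
  (∀ i, OK K (co X i 0) (co X i 1) (co X i 2)) ∧
  (∀ i, co X i 0 ≤ 14 * co X 3 0) ∧ (∀ i, co X 3 0 ≤ 14 * co X i 0) ∧
  (∀ l, co X 0 l + co X 1 l + co X 2 l = co X 3 l + 1) ∧ Z ≤ co X 3 0

/-- the constant in the cubic bound -/
def CC : ℤ := 10 ^ 12

theorem UB.sound {K Z : ℤ} (h : UB K Z) : Z ≤ CC * K ^ 3 := by
  obtain ⟨X, h1, h2, h3, h4, h5⟩ := h
  have h6 := fun i => (h1 i).sound
  choose g j hg hK he using h6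
  obtain ⟨i0, hi0⟩ := Finite.exists_min j
  -- the exponents relative to the smallest one
  have hm : ∀ i, ∃ m, j i = j i0 + m := fun i => ⟨j i - j i0, by have := hi0 i; omega⟩
  choose m hm using hm
  set J := j i0 with hJ
  have K1 : 1 ≤ K := le_trans (hg 0) (hK 0)
  have bJ := E_bd J
  have ex : ∀ i, co X i 0 = g i * (E (j i)).1 := fun i => congrArg Prod.fst (he i)
  have xx : ∀ i, co X i 0 ≤ 196 * (K * (E J).1) := by
    intro i
    have a1 := h2 i
    have a2 := h3 i0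
    have a3 : co X i0 0 ≤ K * (E J).1 := by
      rw [ex i0, ← hJ]
      exact mul_le_mul_of_nonneg_right (hK i0) (by omega)
    omega
  have key : ∀ i, g i * (E (m i)).1 ≤ 1764 * K := by
    intro i
    have a1 := E_mul J (m i)
    rw [← hm i] at a1
    have a2 := xx i
    rw [ex i] at a2
    have a3 : g i * ((E (m i)).1 * (E J).1) ≤ g i * (9 * (E (j i)).1) :=
      mul_le_mul_of_nonneg_left a1 (by have := hg i; omega)
    have a4 : (g i * (E (m i)).1) * (E J).1 ≤ (1764 * K) * (E J).1 := by nlinarith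
    exact le_of_mul_le_mul_right a4 (by omega)
  -- the small vector
  set w : ℤ × ℤ × ℤ := g 0 • E (m 0) + g 1 • E (m 1) + g 2 • E (m 2) + (-g 3) • E (m 3) with hw
  have hT : T7^[J] w = (1, 1, 1) := by
    rw [hw, T7_iter_add, T7_iter_add, T7_iter_add, T7_iter_smul, T7_iter_smul, T7_iter_smul,
      T7_iter_smul, ← E_add, ← E_add, ← E_add, ← E_add, ← hm, ← hm, ← hm, ← hm, neg_smul,
      ← he, ← he, ← he, ← he]
    have l0 := h4 0
    have l1 := h4 1
    have l2 := h4 2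
    refine Prod.ext ?_ (Prod.ext ?_ ?_)
    · simp; linarith
    · simp; linarith
    · simp; linarith
  have cb : ∀ i, 0 ≤ g i * (E (m i)).1 ∧ 0 ≤ g i * (E (m i)).2.1 ∧ 0 ≤ g i * (E (m i)).2.2 ∧
      g i * (E (m i)).2.1 ≤ 1764 * K ∧ g i * (E (m i)).2.2 ≤ 1764 * K := by
    intro i
    have b := E_bd (m i)
    have hgi := hg i
    have k := key i
    have c1 : g i * (E (m i)).2.1 ≤ g i * (E (m i)).1 :=
      mul_le_mul_of_nonneg_left b.2.2.1 (by omega)
    have c2 : g i * (E (m i)).2.2 ≤ g i * (E (m i)).2.1 :=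
      mul_le_mul_of_nonneg_left b.2.1 (by omega)
    have c3 : 0 ≤ g i * (E (m i)).2.2 := mul_nonneg (by omega) (by omega)
    refine ⟨by omega, by omega, c3, by omega, by omega⟩
  have hb := first_bound (n := J) (x := w.1) (y := w.2.1) (z := w.2.2) (H := 7056 * K) hT
    (by
      have c0 := cb 0; have c1 := cb 1; have c2 := cb 2; have c3 := cb 3
      have k0 := key 0; have k1 := key 1; have k2 := key 2; have k3 := key 3
      rw [hw]
      simp only [Prod.fst_add, Prod.smul_fst, smul_eq_mul, neg_mul]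
      rw [abs_le]
      constructor <;> linarith)
    (by
      have c0 := cb 0; have c1 := cb 1; have c2 := cb 2; have c3 := cb 3
      rw [hw]
      simp only [Prod.fst_add, Prod.snd_add, Prod.smul_fst, Prod.smul_snd, smul_eq_mul, neg_mul]
      rw [abs_le]
      constructor <;> linarith)
    (by
      have c0 := cb 0; have c1 := cb 1; have c2 := cb 2; have c3 := cb 3
      rw [hw]
      simp only [Prod.snd_add, Prod.smul_snd, smul_eq_mul, neg_mul]
      rw [abs_le]
      constructor <;> linarith)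
  have x3 := xx 3
  have f1 : K * (E J).1 ≤ K * (9 * (7056 * K * (7056 * K))) :=
    mul_le_mul_of_nonneg_left hb (by omega)
  have f2 : (0 : ℤ) ≤ K ^ 3 := by positivity
  calc Z ≤ 196 * (K * (9 * (7056 * K * (7056 * K)))) := by linarith
    _ = (196 * 9 * 7056 * 7056) * K ^ 3 := by ring
    _ ≤ CC * K ^ 3 := by
      apply mul_le_mul_of_nonneg_right _ f2
      norm_num [CC]

/-! ### completeness -/

theorem exists_abc (n : ℕ) : ∃ a b c : ℤ,
    T7^[n] (a • E 0 + b • E 1 + c • E 2) = (1, 1, 1) := by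
  induction n with
  | zero => exact ⟨1, 0, 0, by simp [E]⟩
  | succ n ih =>
    obtain ⟨a, b, c, h⟩ := ih
    refine ⟨b - a, c - a, a, ?_⟩
    rw [Function.iterate_succ_apply, ← h]
    congr 1
    have e0 : E 0 = (1, 1, 1) := rfl
    have e1 : E 1 = (3, 1, 1) := rfl
    have e2 : E 2 = (5, 3, 1) := rfl
    rw [e0, e1, e2]
    simp only [T7]
    refine Prod.ext ?_ (Prod.ext ?_ ?_) <;> simp <;> ring

theorem E_third (j : ℕ) : (j : ℤ) ≤ 2 * (E j).2.2 + 2 ∧ (j : ℤ) ≤ 2 * (E j).2.1 + 1 ∧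
    (j : ℤ) ≤ 2 * (E j).1 := by
  induction j with
  | zero => simp [E]
  | succ j ih =>
    have b := E_bd j
    rw [E_succ]
    simp only [T7]
    push_cast
    omega

theorem UB.complete (B N : ℤ) : ∃ t : ℤ, N ≤ t ∧ 1 ≤ t ∧ UB (6 * t) (B * t) := by
  obtain ⟨n, hn⟩ : ∃ n : ℕ, B ≤ n := ⟨B.toNat, Int.self_le_toNat B⟩
  set n' := 2 * n with hn'
  obtain ⟨a, b, c, h⟩ := exists_abc n'
  obtain ⟨t, ht1, ht2⟩ : ∃ t : ℤ, N ≤ t ∧ 10 * (|a| + |b| + |c|) + 10 ≤ t :=
    ⟨max N (10 * (|a| + |b| + |c|) + 10), le_max_left _ _, le_max_right _ _⟩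
  have ax := abs_nonneg a
  have ay := abs_nonneg b
  have az := abs_nonneg c
  have bx := le_abs_self a
  have by' := le_abs_self b
  have bz := le_abs_self c
  have nx := neg_abs_le a
  have ny := neg_abs_le b
  have nz := neg_abs_le c
  let G : Fin 4 → ℤ := ![t + a, t + b, t + c, t]
  let V : Fin 4 → ℤ × ℤ × ℤ := fun i => G i • E (n' + i.val)
  let X : Fin 12 → ℤ := ![(V 0).1, (V 0).2.1, (V 0).2.2, (V 1).1, (V 1).2.1, (V 1).2.2,
    (V 2).1, (V 2).2.1, (V 2).2.2, (V 3).1, (V 3).2.1, (V 3).2.2]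
  have c0 : ∀ i, co X i 0 = (V i).1 := by intro i; fin_cases i <;> rfl
  have c1 : ∀ i, co X i 1 = (V i).2.1 := by intro i; fin_cases i <;> rfl
  have c2 : ∀ i, co X i 2 = (V i).2.2 := by intro i; fin_cases i <;> rfl
  have hG : ∀ i, 9 * t ≤ 10 * G i ∧ 10 * G i ≤ 11 * t := by
    intro i
    fin_cases i
    · change 9 * t ≤ 10 * (t + a) ∧ 10 * (t + a) ≤ 11 * t
      omega
    · change 9 * t ≤ 10 * (t + b) ∧ 10 * (t + b) ≤ 11 * t
      omega
    · change 9 * t ≤ 10 * (t + c) ∧ 10 * (t + c) ≤ 11 * t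
      omega
    · change 9 * t ≤ 10 * t ∧ 10 * t ≤ 11 * t
      omega
  -- the four consecutive vectors are comparable
  have hE : ∀ i : Fin 4, (E n').1 ≤ (E (n' + i.val)).1 ∧ (E (n' + i.val)).1 ≤ 9 * (E n').1 := by
    intro i
    have b0 := E_bd n'
    have e1 : E (n' + 1) = T7 (E n') := E_succ _
    have e2 : E (n' + 2) = T7 (T7 (E n')) := by rw [E_succ, E_succ]
    have e3 : E (n' + 3) = T7 (T7 (T7 (E n'))) := by rw [E_succ, E_succ, E_succ]
    fin_cases i
    · simp only [add_zero]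
      omega
    · simp only [e1, T7]
      omega
    · simp only [e2, T7]
      omega
    · simp only [e3, T7]
      omega
  have hE3 : ∀ i : Fin 4, (E (n' + i.val)).1 ≤ (E (n' + 3)).1 := by
    intro i
    have b0 := E_bd n'
    have e1 : E (n' + 1) = T7 (E n') := E_succ _
    have e2 : E (n' + 2) = T7 (T7 (E n')) := by rw [E_succ, E_succ]
    have e3 : E (n' + 3) = T7 (T7 (T7 (E n'))) := by rw [E_succ, E_succ, E_succ]
    fin_cases i
    · simp only [add_zero, e3, T7]
      omega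
    · simp only [e1, e3, T7]
      omega
    · simp only [e2, e3, T7]
      omega
    · simp
  have bn := E_bd n'
  refine ⟨t, ht1, by omega, X, ?_, ?_, ?_, ?_, ?_⟩
  · intro i
    rw [c0, c1, c2]
    have := hG i
    exact OK.complete (n' + i.val) (by omega) (by omega)
  · intro i
    rw [c0, c0]
    simp only [V, Prod.smul_fst, smul_eq_mul]
    have g1 := hG i
    have g3 := hG 3
    have k := hE3 i
    have k' := hE i
    have a1 : 10 * (G i * (E (n' + i.val)).1) ≤ 11 * t * (E (n' + i.val)).1 := by nlinarith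
    have a2 : 11 * t * (E (n' + i.val)).1 ≤ 11 * t * (E (n' + 3)).1 :=
      mul_le_mul_of_nonneg_left k (by omega)
    have a3 : 9 * t * (E (n' + 3)).1 ≤ 10 * (G 3 * (E (n' + (3 : Fin 4).val)).1) := by
      change 9 * t * (E (n' + 3)).1 ≤ 10 * (G 3 * (E (n' + 3)).1)
      have := hE 3
      have e : (E (n' + (3 : Fin 4).val)).1 = (E (n' + 3)).1 := rfl
      rw [e] at this
      nlinarith
    have a4 : 0 ≤ t * (E (n' + 3)).1 := by
      have := hE 3
      have e : (E (n' + (3 : Fin 4).val)).1 = (E (n' + 3)).1 := rfl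
      rw [e] at this
      exact mul_nonneg (by omega) (by omega)
    nlinarith
  · intro i
    rw [c0, c0]
    simp only [V, Prod.smul_fst, smul_eq_mul]
    have g1 := hG i
    have g3 := hG 3
    have k := hE 3
    have k' := hE i
    have a1 : 10 * (G 3 * (E (n' + (3 : Fin 4).val)).1) ≤ 11 * t * (E (n' + (3 : Fin 4).val)).1 := by
      nlinarith
    have a2 : 11 * t * (E (n' + (3 : Fin 4).val)).1 ≤ 11 * t * (9 * (E n').1) :=
      mul_le_mul_of_nonneg_left k.2 (by omega)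
    have a3 : 9 * t * (E n').1 ≤ 10 * (G i * (E (n' + i.val)).1) := by
      have a4 : 9 * t * (E n').1 ≤ 9 * t * (E (n' + i.val)).1 :=
        mul_le_mul_of_nonneg_left k'.1 (by omega)
      nlinarith
    nlinarith
  · have e : (V 0 + V 1 + V 2 : ℤ × ℤ × ℤ) = V 3 + (1, 1, 1) := by
      have v0 : V 0 = (t + a) • E n' := rfl
      have v1 : V 1 = (t + b) • E (n' + 1) := rfl
      have v2 : V 2 = (t + c) • E (n' + 2) := rfl
      have v3 : V 3 = t • E (n' + 3) := rfl
      rw [v0, v1, v2, v3]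
      have s0 : E n' = T7^[n'] (E 0) := E_add n' 0
      have s1 : E (n' + 1) = T7^[n'] (E 1) := E_add n' 1
      have s2 : E (n' + 2) = T7^[n'] (E 2) := E_add n' 2
      have s3 : E (n' + 3) = T7^[n'] (E 0 + E 1 + E 2) := E_add n' 3
      rw [← h, s3, T7_iter_add, T7_iter_add, T7_iter_add, T7_iter_add, T7_iter_smul,
        T7_iter_smul, T7_iter_smul, ← s0, ← s1, ← s2]
      module
    have l0 := congrArg Prod.fst e
    have l1 := congrArg (fun v => v.2.1) e
    have l2 := congrArg (fun v => v.2.2) e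
    simp only [Prod.fst_add, Prod.snd_add] at l0 l1 l2
    intro l
    fin_cases l
    · simp only [Fin.zero_eta, c0]
      exact l0
    · simp only [Fin.mk_one, c1]
      exact l1
    · simp only [Fin.reduceFinMk, c2]
      exact l2
  · rw [c0]
    have v3 : V 3 = t • E (n' + 3) := rfl
    rw [v3]
    simp only [Prod.smul_fst, smul_eq_mul]
    have k := hE3 0
    have k2 := (E_third (n' + 3)).2.2
    rw [mul_comm B t]
    apply mul_le_mul_of_nonneg_left _ (by omega)
    push_cast at k2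
    omega

end Run7.h452.R
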