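import Mathlib
import Pool.Agent.Run7.h452.R.Bnd
import Pool.Agent.Run7.h452.Mul
import Pool.Agent.Helper844.Sys

/-!
Squares, products, and all recursively enumerable sets are definable from the relation `AR` and
linear equations.
-/

set_option autoImplicit false

namespace Run7.h452.R

open Run7.h452
open Pool.Agent.Helper844.Sys

variable {α γ : Type}

theorem D7.all {n : ℕ} {R : Fin n → (α → ℤ) → Prop} (h : ∀ i, D7 (R i)) :
    D7 (fun x => ∀ i, R i x) := by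
  induction n with
  | zero => exact D7.true.congr fun x => by simp
  | succ n ih =>
    refine ((h 0).and (ih (fun i => h i.succ))).congr fun x => ?_
    constructor
    · rintro ⟨h0, h1⟩ i
      refine Fin.cases h0 h1 i
    · intro hx
      exact ⟨hx 0, fun i => hx i.succ⟩

theorem D7.ok {f g l m : (α → ℤ) → ℤ} (hf : Aff f) (hg : Aff g) (hl : Aff l) (hm : Aff m) :
    D7 (fun x => OK (f x) (g x) (l x) (m x)) := by
  have base : D7 (fun x : Fin 4 → ℤ => OK (x 0) (x 1) (x 2) (x 3)) := by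
    have v : ∀ i : Fin 4, Aff (fun w : Fin 4 ⊕ Fin 3 → ℤ => w (Sum.inl i)) := fun i => Aff.var _
    have u : ∀ i : Fin 3, Aff (fun w : Fin 4 ⊕ Fin 3 → ℤ => w (Sum.inr i)) := fun i => Aff.var _
    have h2 := D7.exs ((D7.dz (v 1) (u 0)).and ((D7.dz (v 2) (u 1)).and ((D7.dz (v 3) (u 2)).and
      ((D7.le (Aff.const 1) (((u 0).add (u 1)).add (u 2))).and
      (D7.le (((u 0).add (u 1)).add (u 2)) (v 0))))))
    exact ((D7.orb (Aff.var (1 : Fin 4)) (Aff.var 2) (Aff.var 3)).and h2).congr fun x => Iff.rfl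
  exact D7.rel4 base hf hg hl hm

theorem D7.ub : D7 (fun x : Fin 2 → ℤ => UB (x 0) (x 1)) := by
  have l : ∀ i : Fin 2, Aff (fun w : Fin 2 ⊕ Fin 12 → ℤ => w (Sum.inl i)) := fun i => Aff.var _
  have c : ∀ (i : Fin 4) (j : Fin 3), Aff (fun w : Fin 2 ⊕ Fin 12 → ℤ =>
      co (fun k => w (Sum.inr k)) i j) := fun i j => Aff.var _
  have h := (D7.all (fun i => D7.ok (l 0) (c i 0) (c i 1) (c i 2))).and
    ((D7.all (fun i => D7.le (c i 0) ((c 3 0).smul 14))).and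
    ((D7.all (fun i => D7.le (c 3 0) ((c i 0).smul 14))).and
    ((D7.all (fun j => D7.eq (((c 0 j).add (c 1 j)).add (c 2 j)) ((c 3 j).add (Aff.const 1)))).and
    (D7.le (l 1) (c 3 0)))))
  exact (D7.exs h).congr fun x => Iff.rfl

/-! ### squares -/

theorem crt_eq {t Z n : ℤ} (ht : CC ≤ t) (hn : 0 ≤ n) (hn' : n ≤ 6 * t) (hZ : 0 ≤ Z)
    (hZ' : Z ≤ CC * (6 * t) ^ 3) (h1 : (1 + 1 * (6 * t)) ∣ (1 * Z + n))
    (h2 : (1 + 2 * (6 * t)) ∣ (2 * Z + n)) (h3 : (1 + 3 * (6 * t)) ∣ (3 * Z + n))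
    (h4 : (1 + 4 * (6 * t)) ∣ (4 * Z + n)) : Z = n * (6 * t) := by
  have h := crt4 h1 h2 h3 h4
  have hC : (1 : ℤ) ≤ CC := by norm_num [CC]
  have ht1 : 1 ≤ t := le_trans hC ht
  have ht0 : 0 ≤ t := by omega
  have t2 : 0 ≤ t ^ 2 := by positivity
  have t3 : 0 ≤ t ^ 3 := by positivity
  have t4 : 0 ≤ t ^ 4 := by positivity
  have e34 : t ^ 3 ≤ t ^ 4 := by nlinarith
  have eC : CC * t ^ 3 ≤ t ^ 4 := by
    have := mul_le_mul_of_nonneg_right ht t3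
    calc CC * t ^ 3 ≤ t * t ^ 3 := this
      _ = t ^ 4 := by ring
  have hZ2 : Z ≤ 216 * t ^ 4 := by
    calc Z ≤ CC * (6 * t) ^ 3 := hZ'
      _ = 216 * (CC * t ^ 3) := by ring
      _ ≤ 216 * t ^ 4 := by linarith
  have hnt : 0 ≤ n * (6 * t) := by positivity
  have hnt' : n * (6 * t) ≤ 36 * t ^ 2 := by nlinarith
  have e23 : t ^ 2 ≤ t ^ 3 := by nlinarith
  have hprod : (1 + 1 * (6 * t)) * ((1 + 2 * (6 * t)) * ((1 + 3 * (6 * t)) * (1 + 4 * (6 * t)))) =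
      31104 * t ^ 4 + 10800 * t ^ 3 + 1260 * t ^ 2 + 60 * t + 1 := by ring
  have := Int.eq_zero_of_abs_lt_dvd h (by
    rw [hprod, abs_lt]
    constructor
    · linarith
    · linarith)
  linarith

/-- the graph of the squaring function -/
def SQ (n S : ℤ) : Prop := ∃ w : Fin 3 → ℤ, 1 ≤ n ∧ CC ≤ w 0 ∧ UB (6 * w 0) (w 2) ∧
  n ≤ 6 * w 0 ∧ 1 ≤ w 1 ∧ w 1 ≤ w 2 ∧
  (∀ i : Fin 4, Dv (1 + ((i.val : ℤ) + 1) * (6 * w 0)) (((i.val : ℤ) + 1) * w 1 + n)) ∧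
  (∀ i : Fin 4, Dv (1 + ((i.val : ℤ) + 1) * (6 * (w 0 + n))) (((i.val : ℤ) + 1) * w 2 + n)) ∧
  6 * S + w 1 = w 2

theorem SQ_iff (n S : ℤ) : SQ n S ↔ 1 ≤ n ∧ S = n * n := by
  have hC : (1 : ℤ) ≤ CC := by norm_num [CC]
  constructor
  · rintro ⟨w, hn, ht, hub, hnt, hZ1, hZ12, ha, hb, hS⟩
    have hZ2 := hub.sound
    have a1 := (ha 0).2.2
    have a2 := (ha 1).2.2
    have a3 := (ha 2).2.2
    have a4 := (ha 3).2.2
    have b1 := (hb 0).2.2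
    have b2 := (hb 1).2.2
    have b3 := (hb 2).2.2
    have b4 := (hb 3).2.2
    norm_num at a1 a2 a3 a4 b1 b2 b3 b4
    have e1 := crt_eq ht (by omega) hnt (by omega) (by omega) (by rw [one_mul, one_mul]; exact a1)
      a2 a3 a4
    have mono : CC * (6 * w 0) ^ 3 ≤ CC * (6 * (w 0 + n)) ^ 3 :=
      mul_le_mul_of_nonneg_left (pow_le_pow_left₀ (by omega) (by omega) 3) (by omega)
    have e2 := crt_eq (t := w 0 + n) (by omega) (by omega) (by omega) (by omega) (by omega)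
      (by rw [one_mul, one_mul]; exact b1) b2 b3 b4
    refine ⟨hn, ?_⟩
    have : 6 * S = 6 * (n * n) := by
      have : 6 * S = w 2 - w 1 := by omega
      rw [this, e1, e2]
      ring
    linarith
  · rintro ⟨hn, rfl⟩
    obtain ⟨t, htn, ht1, X, h1, h2, h3, h4, h5⟩ := UB.complete (6 * n + 6 * (n * n)) (n + CC)
    have n2 : 0 ≤ n * n := by positivity
    have hZ : n * (6 * (t + n)) ≤ (6 * n + 6 * (n * n)) * t := by nlinarith
    have hp : 0 ≤ n * t := by positivity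
    have hp1 : 1 ≤ n * t := by nlinarith
    have key : ∀ i u : ℤ, 1 ≤ i → 1 ≤ u → Dv (1 + i * (6 * u)) (i * (n * (6 * u)) + n) := by
      intro i u hi hu
      have : 1 ≤ i * u := by nlinarith
      refine ⟨by nlinarith, ?_, n, by ring⟩
      have : 0 ≤ i * (n * (6 * u)) := by positivity
      omega
    refine ⟨![t, n * (6 * t), n * (6 * (t + n))], hn, ?_, ⟨X, h1, h2, h3, h4, ?_⟩, ?_, ?_, ?_,
      ?_, ?_, ?_⟩
    · change CC ≤ t
      omega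
    · change n * (6 * (t + n)) ≤ co X 3 0
      exact le_trans hZ h5
    · change n ≤ 6 * t
      omega
    · change 1 ≤ n * (6 * t)
      nlinarith
    · change n * (6 * t) ≤ n * (6 * (t + n))
      nlinarith
    · intro i
      exact key _ t (by omega) ht1
    · intro i
      exact key _ (t + n) (by omega) (by omega)
    · change 6 * (n * n) + n * (6 * t) = n * (6 * (t + n))
      ring

theorem D7.sq : D7 (fun x : Fin 2 → ℤ => SQ (x 0) (x 1)) := by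
  have n : Aff (fun w : Fin 2 ⊕ Fin 3 → ℤ => w (Sum.inl 0)) := Aff.var _
  have S : Aff (fun w : Fin 2 ⊕ Fin 3 → ℤ => w (Sum.inl 1)) := Aff.var _
  have t : Aff (fun w : Fin 2 ⊕ Fin 3 → ℤ => w (Sum.inr 0)) := Aff.var _
  have Z1 : Aff (fun w : Fin 2 ⊕ Fin 3 → ℤ => w (Sum.inr 1)) := Aff.var _
  have Z2 : Aff (fun w : Fin 2 ⊕ Fin 3 → ℤ => w (Sum.inr 2)) := Aff.var _
  have dv : ∀ (i : ℤ) {f g : (Fin 2 ⊕ Fin 3 → ℤ) → ℤ}, Aff f → Aff g →
      D7 (fun w => Dv (1 + i * (6 * f w)) (i * g w + w (Sum.inl 0))) := by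
    intro i f g hf hg
    exact D7.dv ((Aff.const 1).add ((hf.smul 6).smul i)) ((hg.smul i).add n)
  have h := (D7.le (Aff.const 1) n).and ((D7.le (Aff.const CC) t).and
    ((D7.rel2 D7.ub (t.smul 6) Z2).and ((D7.le n (t.smul 6)).and ((D7.le (Aff.const 1) Z1).and
    ((D7.le Z1 Z2).and
    ((D7.all (fun i : Fin 4 => dv ((i.val : ℤ) + 1) t Z1)).and
    ((D7.all (fun i : Fin 4 => dv ((i.val : ℤ) + 1) (t.add n) Z2)).and
    (D7.eq ((S.smul 6).add Z1) Z2))))))))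
  exact (D7.exs h).congr fun x => Iff.rfl

theorem D7.sq' : D7 (fun x : Fin 2 → ℤ => 1 ≤ x 0 ∧ x 1 = x 0 * x 0) :=
  D7.sq.congr fun x => SQ_iff _ _

/-- products of positive numbers -/
theorem D7.pm : D7 (fun x : Fin 3 → ℤ => 1 ≤ x 0 ∧ 1 ≤ x 1 ∧ x 2 = x 0 * x 1) := by
  have x : Aff (fun w : Fin 3 ⊕ Fin 3 → ℤ => w (Sum.inl 0)) := Aff.var _
  have y : Aff (fun w : Fin 3 ⊕ Fin 3 → ℤ => w (Sum.inl 1)) := Aff.var _
  have z : Aff (fun w : Fin 3 ⊕ Fin 3 → ℤ => w (Sum.inl 2)) := Aff.var _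
  have a : Aff (fun w : Fin 3 ⊕ Fin 3 → ℤ => w (Sum.inr 0)) := Aff.var _
  have b : Aff (fun w : Fin 3 ⊕ Fin 3 → ℤ => w (Sum.inr 1)) := Aff.var _
  have c : Aff (fun w : Fin 3 ⊕ Fin 3 → ℤ => w (Sum.inr 2)) := Aff.var _
  have s := fun {f g : (Fin 3 ⊕ Fin 3 → ℤ) → ℤ} (hf : Aff f) (hg : Aff g) =>
    D7.rel2 (R := fun u v => 1 ≤ u ∧ v = u * u) D7.sq' hf hg
  have h := (s x a).and ((s y b).and ((s (x.add y) c).and
    (D7.eq (((z.smul 2).add a).add b) c)))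
  refine (D7.exs h).congr fun x => ?_
  constructor
  · rintro ⟨w, ⟨h1, h2⟩, ⟨h3, h4⟩, ⟨h5, h6⟩, h7⟩
    simp only [Sum.elim_inl, Sum.elim_inr] at h1 h2 h3 h4 h5 h6 h7
    refine ⟨h1, h3, ?_⟩
    rw [h2, h4, h6] at h7
    linarith
  · rintro ⟨h1, h2, h3⟩
    refine ⟨![x 0 * x 0, x 1 * x 1, (x 0 + x 1) * (x 0 + x 1)], ⟨h1, rfl⟩, ⟨h2, rfl⟩,
      ⟨?_, rfl⟩, ?_⟩
    · change 1 ≤ x 0 + x 1
      omega
    · change 2 * x 2 + x 0 * x 0 + x 1 * x 1 = (x 0 + x 1) * (x 0 + x 1)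
      rw [h3]
      ring

/-- products of integers -/
theorem D7.mul : D7 (fun x : Fin 3 → ℤ => x 2 = x 0 * x 1) := by
  have x : Aff (fun w : Fin 3 ⊕ Fin 8 → ℤ => w (Sum.inl 0)) := Aff.var _
  have y : Aff (fun w : Fin 3 ⊕ Fin 8 → ℤ => w (Sum.inl 1)) := Aff.var _
  have z : Aff (fun w : Fin 3 ⊕ Fin 8 → ℤ => w (Sum.inl 2)) := Aff.var _
  have v : ∀ i : Fin 8, Aff (fun w : Fin 3 ⊕ Fin 8 → ℤ => w (Sum.inr i)) := fun i => Aff.var _
  have s := fun {f g l : (Fin 3 ⊕ Fin 8 → ℤ) → ℤ} (hf : Aff f) (hg : Aff g) (hl : Aff l) =>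
    D7.rel3 (R := fun u v w => 1 ≤ u ∧ 1 ≤ v ∧ w = u * v) D7.pm hf hg hl
  have h := (s (v 0) (v 2) (v 4)).and ((s (v 1) (v 3) (v 5)).and ((s (v 0) (v 3) (v 6)).and
    ((s (v 1) (v 2) (v 7)).and ((D7.eq x ((v 0).sub (v 1))).and ((D7.eq y ((v 2).sub (v 3))).and
    (D7.eq z ((((v 4).add (v 5)).sub (v 6)).sub (v 7))))))))
  refine (D7.exs h).congr fun x => ?_
  constructor
  · rintro ⟨w, ⟨-, -, h1⟩, ⟨-, -, h2⟩, ⟨-, -, h3⟩, ⟨-, -, h4⟩, h5, h6, h7⟩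
    simp only [Sum.elim_inl, Sum.elim_inr] at h1 h2 h3 h4 h5 h6 h7
    rw [h7, h1, h2, h3, h4, h5, h6]
    ring
  · intro h
    obtain ⟨a, b, ha, hb, hab⟩ : ∃ a b : ℤ, 1 ≤ a ∧ 1 ≤ b ∧ x 0 = a - b := by
      rcases le_total (x 0) 0 with h0 | h0
      · exact ⟨1, 1 - x 0, by omega, by omega, by omega⟩
      · exact ⟨x 0 + 1, 1, by omega, by omega, by omega⟩
    obtain ⟨c, d, hc, hd, hcd⟩ : ∃ c d : ℤ, 1 ≤ c ∧ 1 ≤ d ∧ x 1 = c - d := by
      rcases le_total (x 1) 0 with h0 | h0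
      · exact ⟨1, 1 - x 1, by omega, by omega, by omega⟩
      · exact ⟨x 1 + 1, 1, by omega, by omega, by omega⟩
    refine ⟨![a, b, c, d, a * c, b * d, a * d, b * c], ⟨ha, hc, rfl⟩, ⟨hb, hd, rfl⟩,
      ⟨ha, hd, rfl⟩, ⟨hb, hc, rfl⟩, hab, hcd, ?_⟩
    change x 2 = a * c + b * d - a * d - b * c
    rw [h, hab, hcd]
    ring

theorem D7.eqn {V : Type} (q : Eqn V) : D7 (fun v : V → ℤ => q.Holds v) := by
  have v : ∀ i : V, Aff (fun w : V ⊕ Fin 1 → ℤ => w (Sum.inl i)) := fun i => Aff.var _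
  have p : Aff (fun w : V ⊕ Fin 1 → ℤ => w (Sum.inr 0)) := Aff.var _
  have h1 := D7.rel3 (R := fun a b c => c = a * b) D7.mul (v q.i) (v q.j) p
  have h2 := D7.eq (((((p.smul q.e).add ((v q.k).smul q.a)).add ((v q.l).smul q.b)).add
    ((v q.m).smul q.c)).add (Aff.const q.d)) (Aff.const 0)
  refine (D7.exs (h1.and h2)).congr fun v => ?_
  constructor
  · rintro ⟨t, h3, h4⟩
    change t 0 = v q.i * v q.j at h3
    change q.e * t 0 + q.a * v q.k + q.b * v q.l + q.c * v q.m + q.d = 0 at h4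
    rw [h3] at h4
    exact h4
  · intro h
    exact ⟨fun _ => v q.i * v q.j, rfl, h⟩

theorem D7.sys {V : Type} (L : List (Eqn V)) : D7 (fun v : V → ℤ => ∀ q ∈ L, q.Holds v) := by
  induction L with
  | nil => exact D7.true.congr fun v => by simp
  | cons a l ih => exact ((D7.eqn a).and ih).congr fun v => by simp

/-- every recursively enumerable set of natural numbers is definable -/
theorem D7.re {S : ℕ → Prop} (hS : REPred S) :
    D7 (fun x : Fin 1 → ℤ => ∃ n : ℕ, S n ∧ x 0 = n) := by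
  obtain ⟨V, _, f0, L0, h0⟩ := exists_system S (Pool.Agent.Helper844.Dio.dprm hS)
  let e := Fintype.equivFin V
  have h2 := D7.comp (D7.sys L0) (f := fun (v : V) (w : Fin 1 ⊕ Fin (Fintype.card V) → ℤ) =>
    w (Sum.inr (e v))) (fun v => Aff.var _)
  have h1 : D7 (fun w : Fin 1 ⊕ Fin (Fintype.card V) → ℤ =>
      w (Sum.inr (e f0)) = 1 - 4 * w (Sum.inl 0)) :=
    D7.eq (Aff.var _) ((Aff.const 1).sub ((Aff.var _).smul 4))
  refine (D7.exs (h1.and h2)).congr fun x => ?_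
  constructor
  · rintro ⟨y, h3, h4⟩
    simp only [Sum.elim_inl, Sum.elim_inr] at h3 h4
    obtain ⟨n, hn, hn'⟩ := (h0 (1 - 4 * x 0)).1 ⟨fun v => y (e v), h3, h4⟩
    exact ⟨n, hn, by omega⟩
  · rintro ⟨n, hn, hx⟩
    obtain ⟨y, hy, hy'⟩ := (h0 (1 - 4 * (n : ℤ))).2 ⟨n, hn, rfl⟩
    refine ⟨fun i => y (e.symm i), ?_, ?_⟩
    · simp only [Sum.elim_inl, Sum.elim_inr, Equiv.symm_apply_apply]
      rw [hy, hx]
    · simp only [Sum.elim_inr, Equiv.symm_apply_apply]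
      exact hy'

end Run7.h452.R
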