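import Mathlib
import Pool.Agent.Run7.h452.R.Atom
import Pool.Agent.Run7.h452.R.Mul
import Pool.Agent.Run7.h452.Block

/-!
A single regular word equation over two letters, with linear constraints on the lengths of its
variables, which defines a given recursively enumerable set.
-/

set_option autoImplicit false

namespace Run7.h452.R

open Run7.h452

/-- words over letters and variables -/
abbrev Wk (k : ℕ) : Type := List (Fin k ⊕ ℕ)

/-- the image of a word -/
def img {k : ℕ} (h : ℕ → List (Fin k)) (w : Wk k) : List (Fin k) :=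
  w.flatMap (Sum.elim (fun a => [a]) h)

section

variable {k : ℕ} (c0 c1 : Fin k)

def La (t : ℕ) : Wk k :=
  [Sum.inr (9 * t), Sum.inl c0, Sum.inl c0, Sum.inr (9 * t + 1), Sum.inl c0, Sum.inl c0,
    Sum.inr (9 * t + 2), Sum.inl c0, Sum.inl c0, Sum.inr (9 * t + 3), Sum.inl c0, Sum.inl c1,
    Sum.inr (9 * t + 4), Sum.inl c1, Sum.inl c0, Sum.inr (9 * t + 5)]

def Ra (t : ℕ) : Wk k :=
  [Sum.inr (9 * t + 6), Sum.inl c0, Sum.inl c0, Sum.inr (9 * t + 7)]

def Lb (t : ℕ) : Wk k :=
  [Sum.inr (9 * t + 7), Sum.inl c1, Sum.inl c1, Sum.inr (9 * t + 6)]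

def Rb (t : ℕ) : Wk k :=
  [Sum.inr (9 * t + 1), Sum.inl c0, Sum.inl c1, Sum.inr (9 * t), Sum.inl c1, Sum.inl c0,
    Sum.inr (9 * t + 3), Sum.inl c1, Sum.inl c1, Sum.inr (9 * t + 2), Sum.inl c0, Sum.inl c0,
    Sum.inr (9 * t + 5), Sum.inl c0, Sum.inl c0, Sum.inr (9 * t + 4)]

/-- the variables which carry the values of the unknowns -/
def Xs (k N : ℕ) : Wk k := (List.range N).map (fun i => Sum.inr (9 * i + 8))

/-- the left-hand side -/
def LH (N T : ℕ) : Wk k := Xs k N ++ (List.range T).flatMap (fun t => La c0 c1 t ++ Lb c1 t)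

/-- the right-hand side -/
def RH (N T : ℕ) : Wk k := Xs k N ++ (List.range T).flatMap (fun t => Ra c0 t ++ Rb c0 c1 t)

variable {c0 c1}

theorem img_append (h : ℕ → List (Fin k)) (w w' : Wk k) :
    img h (w ++ w') = img h w ++ img h w' := by
  simp [img]

theorem sys_iff (h : ℕ → List (Fin k)) (t : ℕ) :
    (img h (La c0 c1 t) = img h (Ra c0 t) ∧ img h (Lb c1 t) = img h (Rb c0 c1 t)) ↔
    Sys c0 c1 (h (9 * t)) (h (9 * t + 1)) (h (9 * t + 2)) (h (9 * t + 3)) (h (9 * t + 4))
      (h (9 * t + 5)) (h (9 * t + 6)) (h (9 * t + 7)) := by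
  simp [img, La, Ra, Lb, Rb, Sys]

/-- equal lengths of the segments -/
def Al (h : ℕ → List (Fin k)) (c0 c1 : Fin k) (t : ℕ) : Prop :=
  (img h (La c0 c1 t)).length = (img h (Ra c0 t)).length ∧
    (img h (Lb c1 t)).length = (img h (Rb c0 c1 t)).length

theorem flat_iff (h : ℕ → List (Fin k)) (ts : List ℕ) (ha : ∀ t ∈ ts, Al h c0 c1 t) :
    (img h (ts.flatMap (fun t => La c0 c1 t ++ Lb c1 t)) =
      img h (ts.flatMap (fun t => Ra c0 t ++ Rb c0 c1 t))) ↔
    ∀ t ∈ ts, img h (La c0 c1 t) = img h (Ra c0 t) ∧ img h (Lb c1 t) = img h (Rb c0 c1 t) := by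
  induction ts with
  | nil => simp [img]
  | cons t ts ih =>
    have iht := ih (fun t ht => ha t (List.mem_cons_of_mem _ ht))
    obtain ⟨a1, a2⟩ := ha t List.mem_cons_self
    rw [List.flatMap_cons, List.flatMap_cons, img_append, img_append, img_append, img_append,
      List.forall_mem_cons, ← iht]
    constructor
    · intro e
      rw [List.append_assoc, List.append_assoc] at e
      obtain ⟨e1, e2⟩ := List.append_inj e a1
      obtain ⟨e3, e4⟩ := List.append_inj e2 a2
      exact ⟨⟨e1, e3⟩, e4⟩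
    · rintro ⟨⟨e1, e2⟩, e3⟩
      rw [e1, e2, e3]

theorem eq_iff (h : ℕ → List (Fin k)) (N T : ℕ) (ha : ∀ t, t < T → Al h c0 c1 t) :
    (img h (LH c0 c1 N T) = img h (RH c0 c1 N T)) ↔
    ∀ t, t < T → Sys c0 c1 (h (9 * t)) (h (9 * t + 1)) (h (9 * t + 2)) (h (9 * t + 3))
      (h (9 * t + 4)) (h (9 * t + 5)) (h (9 * t + 6)) (h (9 * t + 7)) := by
  unfold LH RH
  rw [img_append, img_append, List.append_cancel_left_eq,
    flat_iff h (List.range T) (fun t ht => ha t (List.mem_range.1 ht))]
  simp only [List.mem_range, sys_iff]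

/-! ### regularity -/

/-- the list of the occurrences of variables -/
def vars (w : Wk k) : List ℕ := w.filterMap Sum.getRight?

theorem mem_vars {w : Wk k} {j : ℕ} : j ∈ vars w ↔ Sum.inr j ∈ w := by
  unfold vars
  rw [List.mem_filterMap]
  constructor
  · rintro ⟨a, ha, h⟩
    rw [Sum.getRight?_eq_some_iff] at h
    rw [← h]
    exact ha
  · intro h
    exact ⟨_, h, rfl⟩

theorem vars_append (w w' : Wk k) : vars (w ++ w') = vars w ++ vars w' := by
  simp [vars]

theorem vars_Xs (N : ℕ) : vars (Xs k N) = (List.range N).map (fun i => 9 * i + 8) := by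
  simp [vars, Xs, List.filterMap_map, Function.comp_def]

theorem nodup_aux (N T : ℕ) (f : ℕ → List ℕ) (hf : ∀ t, (f t).Nodup)
    (hf' : ∀ t, ∀ j ∈ f t, j / 9 = t ∧ j % 9 ≠ 8) :
    ((List.range N).map (fun i => 9 * i + 8) ++ (List.range T).flatMap f).Nodup := by
  rw [List.nodup_append]
  refine ⟨?_, ?_, ?_⟩
  · apply List.Nodup.map _ List.nodup_range
    intro a b h
    simp only at h
    omega
  · rw [List.nodup_flatMap]
    refine ⟨fun t _ => hf t, ?_⟩
    apply List.Pairwise.imp _ List.nodup_range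
    intro a b hab j hj hj'
    exact hab ((hf' a j hj).1.symm.trans (hf' b j hj').1)
  · intro a ha b hb
    rw [List.mem_map] at ha
    rw [List.mem_flatMap] at hb
    obtain ⟨i, -, rfl⟩ := ha
    obtain ⟨t, -, hb⟩ := hb
    have := hf' t b hb
    omega

theorem vars_flat (ts : List ℕ) (f : ℕ → Wk k) : vars (ts.flatMap f) =
    ts.flatMap (fun t => vars (f t)) := by
  induction ts with
  | nil => rfl
  | cons t ts ih => rw [List.flatMap_cons, vars_append, ih, List.flatMap_cons]

theorem vars_L (t : ℕ) : vars (La c0 c1 t ++ Lb c1 t) = [9 * t, 9 * t + 1, 9 * t + 2, 9 * t + 3,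
    9 * t + 4, 9 * t + 5, 9 * t + 7, 9 * t + 6] := rfl

theorem vars_R (t : ℕ) : vars (Ra c0 t ++ Rb c0 c1 t) = [9 * t + 6, 9 * t + 7, 9 * t + 1, 9 * t,
    9 * t + 3, 9 * t + 2, 9 * t + 5, 9 * t + 4] := rfl

theorem nodup_LH (N T : ℕ) : (vars (LH c0 c1 N T)).Nodup := by
  unfold LH
  rw [vars_append, vars_Xs, vars_flat]
  apply nodup_aux
  · intro t
    rw [vars_L]
    simp
  · intro t j hj
    rw [vars_L] at hj
    simp at hj
    omega

theorem nodup_RH (N T : ℕ) : (vars (RH c0 c1 N T)).Nodup := by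
  unfold RH
  rw [vars_append, vars_Xs, vars_flat]
  apply nodup_aux
  · intro t
    rw [vars_R]
    simp
  · intro t j hj
    rw [vars_R] at hj
    simp at hj
    omega

theorem mem_LH (N T : ℕ) (j : ℕ) (h : (j % 9 = 8 ∧ j / 9 < N) ∨ (j % 9 ≠ 8 ∧ j / 9 < T)) :
    (Sum.inr j : Fin k ⊕ ℕ) ∈ LH c0 c1 N T := by
  rw [← mem_vars]
  unfold LH
  rw [vars_append, vars_Xs, vars_flat, List.mem_append, List.mem_map, List.mem_flatMap]
  rcases h with ⟨h1, h2⟩ | ⟨h1, h2⟩
  · left
    exact ⟨j / 9, List.mem_range.2 h2, by omega⟩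
  · right
    refine ⟨j / 9, List.mem_range.2 h2, ?_⟩
    rw [vars_L]
    simp
    omega

theorem mem_RH (N T : ℕ) (j : ℕ) (h : (j % 9 = 8 ∧ j / 9 < N) ∨ (j % 9 ≠ 8 ∧ j / 9 < T)) :
    (Sum.inr j : Fin k ⊕ ℕ) ∈ RH c0 c1 N T := by
  rw [← mem_vars]
  unfold RH
  rw [vars_append, vars_Xs, vars_flat, List.mem_append, List.mem_map, List.mem_flatMap]
  rcases h with ⟨h1, h2⟩ | ⟨h1, h2⟩
  · left
    exact ⟨j / 9, List.mem_range.2 h2, by omega⟩
  · right
    refine ⟨j / 9, List.mem_range.2 h2, ?_⟩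
    rw [vars_R]
    simp
    omega

end

/-! ### length constraints -/

/-- constraints for the atom number `t` -/
def Cn (t i j l : ℕ) : List (List (ℕ × ℤ) × ℤ) :=
  [([(9 * t, 1), (9 * i + 8, -2)], 0), ([(9 * t + 1, 1), (9 * i + 8, -2)], 0),
   ([(9 * t + 2, 1), (9 * j + 8, -2)], 0), ([(9 * t + 3, 1), (9 * j + 8, -2)], 0),
   ([(9 * t + 4, 1), (9 * l + 8, -2)], 0), ([(9 * t + 5, 1), (9 * l + 8, -2)], 0),
   ([(9 * t + 6, 1), (9 * i + 8, -2), (9 * j + 8, -2), (9 * l + 8, -2)], 4),
   ([(9 * t + 7, 1), (9 * i + 8, -2), (9 * j + 8, -2), (9 * l + 8, -2)], 4)]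

theorem Cn_iff (y : ℕ → ℕ) (t i j l : ℕ) : (∀ e ∈ Cn t i j l, LHolds y e) ↔
    (y (9 * t) = 2 * y (9 * i + 8) ∧ y (9 * t + 1) = 2 * y (9 * i + 8) ∧
      y (9 * t + 2) = 2 * y (9 * j + 8) ∧ y (9 * t + 3) = 2 * y (9 * j + 8) ∧
      y (9 * t + 4) = 2 * y (9 * l + 8) ∧ y (9 * t + 5) = 2 * y (9 * l + 8) ∧
      y (9 * t + 6) = 2 * (y (9 * i + 8) + y (9 * j + 8) + y (9 * l + 8) + 2) ∧
      y (9 * t + 7) = 2 * (y (9 * i + 8) + y (9 * j + 8) + y (9 * l + 8) + 2)) := by
  simp only [Cn, List.mem_cons, List.not_mem_nil, or_false, forall_eq_or_imp, forall_eq, LHolds,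
    List.map_cons, List.map_nil, List.sum_cons, List.sum_nil]
  omega

/-- translation of linear forms; the parameter is the length of the variable `9 N + 8` -/
def tl (N : ℕ) (l : Lin (Fin 1)) : List (ℕ × ℤ) :=
  l.map (fun t => (Sum.elim (fun _ => 9 * N + 8) (fun j => 9 * j + 8) t.1, t.2))

/-- sum of the coefficients of the unknowns -/
def sc (l : Lin (Fin 1)) : ℤ := (l.map (fun t => Sum.elim (fun _ => 0) (fun _ => t.2) t.1)).sum

theorem tl_ev (y : ℕ → ℕ) (N n : ℕ) (h0 : y (9 * N + 8) = n) (l : Lin (Fin 1)) :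
    ((tl N l).map (fun p => p.2 * (y p.1 : ℤ))).sum + sc l =
      Lin.ev (fun _ => (n : ℤ)) (fun j => (y (9 * j + 8) : ℤ) + 1) l := by
  induction l with
  | nil => rfl
  | cons t l ih =>
    have e1 : ((tl N (t :: l)).map (fun p => p.2 * (y p.1 : ℤ))).sum =
        t.2 * (y (Sum.elim (fun _ => 9 * N + 8) (fun j => 9 * j + 8) t.1) : ℤ) +
          ((tl N l).map (fun p => p.2 * (y p.1 : ℤ))).sum := by
      simp [tl]
    have e2 : sc (t :: l) = Sum.elim (fun _ => 0) (fun _ => t.2) t.1 + sc l := by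
      simp [sc]
    rw [e1, e2, Lin.ev_cons, ← ih]
    rcases t with ⟨a | a, d⟩
    · simp only [Sum.elim_inl, h0]
      ring
    · simp only [Sum.elim_inr]
      ring

/-- all unknowns are below a bound -/
theorem AS.exists_bd (S : AS (Fin 1)) : ∃ N : ℕ,
    (∀ a ∈ S.atoms, a.1 < N ∧ a.2.1 < N ∧ a.2.2 < N) ∧
    (∀ c ∈ S.lens, ∀ t ∈ c.1, ∀ j, t.1 = Sum.inr j → j < N) := by
  let g : Fin 1 ⊕ ℕ → List ℕ := Sum.elim (fun _ => []) (fun j => [j])
  obtain ⟨N, hN⟩ := Run7.h452.exists_bd (S.atoms.flatMap (fun a => [a.1, a.2.1, a.2.2]) ++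
    S.lens.flatMap (fun c => c.1.flatMap (fun t => g t.1)))
  refine ⟨N, fun a ha => ⟨hN _ ?_, hN _ ?_, hN _ ?_⟩, fun c hc t ht j hj => hN j ?_⟩
  · apply List.mem_append_left
    rw [List.mem_flatMap]
    exact ⟨a, ha, by simp⟩
  · apply List.mem_append_left
    rw [List.mem_flatMap]
    exact ⟨a, ha, by simp⟩
  · apply List.mem_append_left
    rw [List.mem_flatMap]
    exact ⟨a, ha, by simp⟩
  · apply List.mem_append_right
    rw [List.mem_flatMap]
    refine ⟨c, hc, ?_⟩
    rw [List.mem_flatMap]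
    exact ⟨t, ht, by simp [g, hj]⟩

theorem ev_congr' {x : Fin 1 → ℤ} {y y' : ℕ → ℤ} {l : Lin (Fin 1)}
    (h : ∀ t ∈ l, ∀ j, t.1 = Sum.inr j → y j = y' j) : Lin.ev x y l = Lin.ev x y' l :=
  Run7.h452.ev_congr h

/-- The core theorem: for every recursively enumerable set `S` there are a regular word equation
`(U, V)` over an alphabet with at least two letters and linear equations between the lengths of
its variables such that `n ∈ S` iff there is a solution in which the length of a fixed variable is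
`n`. -/
theorem reg_re (k : ℕ) (hk : 2 ≤ k) {S : ℕ → Prop} (hS : REPred S) :
    ∃ (U V : Wk k) (L : List (List (ℕ × ℤ) × ℤ)) (P : ℕ),
      (vars U).Nodup ∧ (vars V).Nodup ∧
      Sum.inr P ∈ U ∧ Sum.inr P ∈ V ∧
      (∀ l ∈ L, ∀ p ∈ l.1, Sum.inr p.1 ∈ U ∧ Sum.inr p.1 ∈ V) ∧
      ∀ n : ℕ, S n ↔ ∃ h : ℕ → List (Fin k), img h U = img h V ∧
        (∀ l ∈ L, LHolds (fun i => (h i).length) l) ∧ (h P).length = n := by
  obtain ⟨Sg, hSg⟩ := D7.re hS
  obtain ⟨N, hN1, hN2⟩ := Sg.exists_bd
  set T := Sg.atoms.length with hT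
  let at' : ℕ → ℕ × ℕ × ℕ := fun t => Sg.atoms.getD t (0, 0, 0)
  have at_mem : ∀ t, t < T → at' t ∈ Sg.atoms := by
    intro t ht
    simp only [at']
    rw [List.getD_eq_getElem _ _ ht]
    exact List.getElem_mem ht
  have mem_at : ∀ a ∈ Sg.atoms, ∃ t, t < T ∧ at' t = a := by
    intro a ha
    obtain ⟨t, ht, e⟩ := List.getElem_of_mem ha
    refine ⟨t, ht, ?_⟩
    simp only [at']
    rw [List.getD_eq_getElem _ _ ht, e]
  let c0 : Fin k := ⟨0, by omega⟩
  let c1 : Fin k := ⟨1, by omega⟩
  have hc : c0 ≠ c1 := by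
    intro h
    have := congrArg Fin.val h
    simp [c0, c1] at this
  refine ⟨LH c0 c1 (N + 1) T, RH c0 c1 (N + 1) T,
    Sg.lens.map (fun d => (tl N d.1, d.2 - sc d.1)) ++
      (List.range T).flatMap (fun t => Cn t (at' t).1 (at' t).2.1 (at' t).2.2), 9 * N + 8,
    nodup_LH _ _, nodup_RH _ _, mem_LH _ _ _ (Or.inl (by omega)), mem_RH _ _ _ (Or.inl (by omega)),
    ?_, ?_⟩
  · intro l hl p hp
    have hp' : (p.1 % 9 = 8 ∧ p.1 / 9 < N + 1) ∨ (p.1 % 9 ≠ 8 ∧ p.1 / 9 < T) := by
      rcases List.mem_append.1 hl with hl | hl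
      · obtain ⟨d, hd, rfl⟩ := List.mem_map.1 hl
        obtain ⟨t, ht, rfl⟩ := List.mem_map.1 hp
        rcases t with ⟨a | a, e⟩
        · simp only [Sum.elim_inl]
          omega
        · have := hN2 d hd _ ht a rfl
          simp only [Sum.elim_inr]
          omega
      · obtain ⟨t, ht, hl⟩ := List.mem_flatMap.1 hl
        have ht' := List.mem_range.1 ht
        have hb := hN1 _ (at_mem t ht')
        simp only [Cn, List.mem_cons, List.not_mem_nil, or_false] at hl
        rcases hl with rfl | rfl | rfl | rfl | rfl | rfl | rfl | rfl <;>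
        · simp only [List.mem_cons, List.not_mem_nil, or_false] at hp
          rcases hp with rfl | rfl | rfl | rfl <;> simp only <;> omega
    exact ⟨mem_LH _ _ _ hp', mem_RH _ _ _ hp'⟩
  · intro n
    have h1 : S n ↔ Sg.Holds (fun _ => (n : ℤ)) := by
      rw [← hSg]
      constructor
      · intro h
        exact ⟨n, h, rfl⟩
      · rintro ⟨m, hm, he⟩
        have he' : (n : ℤ) = m := he
        have : n = m := by exact_mod_cast he'
        rw [this]
        exact hm
    rw [h1]
    constructor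
    · rintro ⟨y, hy1, hy2, hy3⟩
      have hex : ∀ t, ∃ f : ℕ → List (Fin k), t < T →
          (Sys c0 c1 (f 0) (f 1) (f 2) (f 3) (f 4) (f 5) (f 6) (f 7) ∧
          (f 0).length = 2 * (y (at' t).1 - 1).toNat ∧
          (f 1).length = 2 * (y (at' t).1 - 1).toNat ∧
          (f 2).length = 2 * (y (at' t).2.1 - 1).toNat ∧
          (f 3).length = 2 * (y (at' t).2.1 - 1).toNat ∧
          (f 4).length = 2 * (y (at' t).2.2 - 1).toNat ∧
          (f 5).length = 2 * (y (at' t).2.2 - 1).toNat ∧
          (f 6).length = 2 * ((y (at' t).1 - 1).toNat + (y (at' t).2.1 - 1).toNat +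
            (y (at' t).2.2 - 1).toNat + 2) ∧
          (f 7).length = 2 * ((y (at' t).1 - 1).toNat + (y (at' t).2.1 - 1).toNat +
            (y (at' t).2.2 - 1).toNat + 2)) := by
        intro t
        by_cases ht : t < T
        · have hA := hy2 _ (at_mem t ht)
          have p0 := hy1 (at' t).1
          have p1 := hy1 (at' t).2.1
          have p2 := hy1 (at' t).2.2
          have e0 : y (at' t).1 = ((y (at' t).1 - 1).toNat : ℤ) + 1 := by omega
          have e1 : y (at' t).2.1 = ((y (at' t).2.1 - 1).toNat : ℤ) + 1 := by omega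
          have e2 : y (at' t).2.2 = ((y (at' t).2.2 - 1).toNat : ℤ) + 1 := by omega
          have hA' : AR (((y (at' t).1 - 1).toNat : ℤ) + 1) (((y (at' t).2.1 - 1).toNat : ℤ) + 1)
              (((y (at' t).2.2 - 1).toNat : ℤ) + 1) := by
            rw [← e0, ← e1, ← e2]
            exact hA
          obtain ⟨u1, u2, v1, v2, w1, w2, z1, z2, hs, l1, l2, l3, l4, l5, l6, l7, l8⟩ :=
            Sys.complete c0 c1 hA'
          exact ⟨fun i => [u1, u2, v1, v2, w1, w2, z1, z2].getD i [], fun _ =>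
            ⟨hs, l1, l2, l3, l4, l5, l6, l7, l8⟩⟩
        · exact ⟨fun _ => [], fun h => absurd h ht⟩
      choose F hF using hex
      let h : ℕ → List (Fin k) := fun m => if m % 9 = 8 then
        (if m / 9 = N then List.replicate n c0 else List.replicate (y (m / 9) - 1).toNat c0)
        else F (m / 9) (m % 9)
      have hP : h (9 * N + 8) = List.replicate n c0 := by
        simp only [h]
        rw [if_pos (by omega), if_pos (by omega)]
      have hX : ∀ j, j < N → (h (9 * j + 8)).length = (y j - 1).toNat := by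
        intro j hj
        simp only [h]
        rw [if_pos (by omega), if_neg (by omega), List.length_replicate]
        congr 3
        omega
      have hv : ∀ t i, i < 8 → h (9 * t + i) = F t i := by
        intro t i hi
        simp only [h]
        rw [if_neg (by omega)]
        have e1 : (9 * t + i) / 9 = t := by omega
        have e2 : (9 * t + i) % 9 = i := by omega
        rw [e1, e2]
      have hCn : ∀ t, t < T → ∀ e ∈ Cn t (at' t).1 (at' t).2.1 (at' t).2.2,
          LHolds (fun i => (h i).length) e := by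
        intro t ht
        rw [Cn_iff]
        have hb := hN1 _ (at_mem t ht)
        rw [hX _ hb.1, hX _ hb.2.1, hX _ hb.2.2]
        have v0 := hv t 0 (by omega)
        rw [add_zero] at v0
        rw [v0, hv t 1 (by omega), hv t 2 (by omega), hv t 3 (by omega), hv t 4 (by omega),
          hv t 5 (by omega), hv t 6 (by omega), hv t 7 (by omega)]
        exact (hF t ht).2
      refine ⟨h, ?_, ?_, ?_⟩
      · have hSys : ∀ t, t < T → Sys c0 c1 (h (9 * t)) (h (9 * t + 1)) (h (9 * t + 2))
            (h (9 * t + 3)) (h (9 * t + 4)) (h (9 * t + 5)) (h (9 * t + 6)) (h (9 * t + 7)) := by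
          intro t ht
          have v0 := hv t 0 (by omega)
          rw [add_zero] at v0
          rw [v0, hv t 1 (by omega), hv t 2 (by omega), hv t 3 (by omega), hv t 4 (by omega),
            hv t 5 (by omega), hv t 6 (by omega), hv t 7 (by omega)]
          exact (hF t ht).1
        rw [eq_iff h (N + 1) T]
        · exact hSys
        · intro t ht
          have := (sys_iff h t).2 (hSys t ht)
          exact ⟨congrArg _ this.1, congrArg _ this.2⟩
      · intro l hl
        rcases List.mem_append.1 hl with hl | hl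
        · obtain ⟨d, hd, rfl⟩ := List.mem_map.1 hl
          unfold LHolds
          have e1 := tl_ev (fun i => (h i).length) N n (by
            beta_reduce
            rw [hP, List.length_replicate]) d.1
          have e2 := hy3 d hd
          have e3 : Lin.ev (fun _ => (n : ℤ)) (fun j => ((h (9 * j + 8)).length : ℤ) + 1) d.1 =
              Lin.ev (fun _ => (n : ℤ)) y d.1 := by
            apply ev_congr'
            intro t ht j hj
            have hj' := hN2 d hd t ht j hj
            have := hy1 j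
            rw [hX j hj']
            omega
          simp only at e1 e3 ⊢
          linarith
        · obtain ⟨t, ht, hl⟩ := List.mem_flatMap.1 hl
          exact hCn t (List.mem_range.1 ht) l hl
      · rw [hP, List.length_replicate]
    · rintro ⟨h, he, hl, hP⟩
      have hCn : ∀ t, t < T → _ := fun t ht =>
        (Cn_iff (fun i => (h i).length) t (at' t).1 (at' t).2.1 (at' t).2.2).1 (fun e he' =>
          hl e (List.mem_append_right _ (List.mem_flatMap.2 ⟨t, List.mem_range.2 ht, he'⟩)))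
      have hAl : ∀ t, t < T → Al h c0 c1 t := by
        intro t ht
        have := hCn t ht
        unfold Al
        simp only [img, La, Ra, Lb, Rb, List.flatMap_cons, List.flatMap_nil, Sum.elim_inl,
          Sum.elim_inr, List.length_append, List.length_cons, List.length_nil]
        omega
      rw [eq_iff h (N + 1) T hAl] at he
      refine ⟨fun i => ((h (9 * i + 8)).length : ℤ) + 1, fun i => by beta_reduce; omega, ?_, ?_⟩
      · intro a ha
        obtain ⟨t, ht, rfl⟩ := mem_at a ha
        obtain ⟨l1, l2, l3, l4, l5, l6, l7, l8⟩ := hCn t ht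
        exact (he t ht).sound hc l1 l2 l3 l4 l5 l6 l7 l8
      · intro d hd
        have := hl _ (List.mem_append_left _ (List.mem_map_of_mem
          (f := fun d : Lin (Fin 1) × ℤ => (tl N d.1, d.2 - sc d.1)) hd))
        unfold LHolds at this
        have e1 := tl_ev (fun i => (h i).length) N n hP d.1
        simp only at this e1 ⊢
        linarith

end Run7.h452.R
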